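import Pool.Agent.H27.L1.H11.GHY.DYD
import Pool.Agent.H27.L1.H37.GHY.CRD

/-!
Board ghk (MP_52e316_nt): the large sieve, the fourth moment of the Dirichlet polynomials and of the
truncated L-functions with weights, from a weighted inequality of Bessel. The families are abstract.
-/

namespace Pool.Agent.H27.L1.H23.GHK

open MeasureTheory Pool.Agent.H27.L1.H34.GM Pool.Agent.H27.L1.H34.GZ Pool.Agent.H27.L1.H34.GU Pool.Agent.H27.L1.H34.GA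
  Pool.Agent.H27.L1.H68.GHY

/-- the inequality of Bessel with the weights `W i`, on `DY D Y` -/
def BESp (m : ℕ) {ι : Type} [Fintype ι] (W : ι → ENNReal) (lam : ι → ℕ → ℂ) (N : ℕ) [NeZero N]
    (D : Set (V m)) (χ : ℝ → ℝ) (c δ Y : ℝ) : Prop :=
  ∀ (y : ℝ) (a : ℕ → ℂ) (x0 : ℝ), 1 ≤ y → Coe y a → 0 < x0 →
    ENNReal.ofReal (c * tb m χ δ ^ 2) * ∑ i, W i * ENNReal.ofReal (‖Bs m (lam i) a y δ x0‖ ^ 2) ≤
      ∫⁻ g in DY D Y, Ed N D δ y x0 (mt g) ∂(hm m)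

/-- the large sieve for the short sums, with the weights `W i` -/
def LSDp (m : ℕ) (ε C : ℝ) (K : ℕ) {ι : Type} [Fintype ι] (W : ι → ENNReal) (lam : ι → ℕ → ℂ)
    (N : ℕ) (δ : ℝ) : Prop :=
  ∀ (y : ℝ) (a : ℕ → ℂ), 1 ≤ y → Coe y a →
    ∑ i, W i * ∫⁻ x0 in Set.Ioi (0 : ℝ), ENNReal.ofReal (‖Bs m (lam i) a y δ x0‖ ^ 2 * x0⁻¹) ≤
      ENNReal.ofReal (C * δ ^ 2 * δ⁻¹ ^ (m ^ 2) * (N : ℝ) ^ ((m : ℝ) + ε) *
        (1 + Real.log (y * N * δ⁻¹)) ^ K * y ^ (2 * m) * (1 + δ ^ m * y ^ 2 / N) ^ m)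

/-- the fourth moment of the Dirichlet polynomials, with the weights `W i` -/
def LT4p (m : ℕ) (ε C : ℝ) (K : ℕ) {ι : Type} [Fintype ι] (W : ι → ENNReal) (lam : ι → ℕ → ℂ)
    (N : ℕ) (δ : ℝ) : Prop :=
  ∀ (y : ℝ) (a : ℕ → ℂ), 1 ≤ y → Coe y a →
    ∑ i, W i * ∫⁻ t in Set.Icc (-δ⁻¹) δ⁻¹, ENNReal.ofReal (‖DP m (lam i) a y t‖ ^ 4) ≤
      ENNReal.ofReal (C * δ⁻¹ ^ (m ^ 2) * (N : ℝ) ^ ((m : ℝ) + ε) *
        (1 + Real.log (y * N * δ⁻¹)) ^ K * y ^ (2 * m) * (1 + δ ^ m * y ^ 2 / N) ^ m)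

private lemma ls_sum {α ι : Type} [MeasurableSpace α] [DecidableEq ι] (μ : Measure α)
    (s : Finset ι) (f : ι → α → ENNReal) :
    ∑ i ∈ s, ∫⁻ x, f i x ∂μ ≤ ∫⁻ x, ∑ i ∈ s, f i x ∂μ := by
  induction s using Finset.induction_on with
  | empty => simp
  | insert a s ha ih =>
    rw [Finset.sum_insert ha]
    have h1 : ∀ x, ∑ i ∈ insert a s, f i x = f a x + ∑ i ∈ s, f i x := fun x =>
      Finset.sum_insert ha
    simp only [h1]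
    exact (add_le_add le_rfl ih).trans (le_lintegral_add _ _)

private lemma ls_log {CM Nr y di : ℝ} {A : ℕ} (hCM : 1 ≤ CM) (hN : 1 ≤ Nr) (hy : 1 ≤ y)
    (hd : 2 ≤ di) :
    1 + Real.log (y * max 2 (CM * Nr * di ^ A) * Nr) ≤
      (Real.log (2 * CM) + A + 3) * (1 + Real.log (y * Nr * di)) := by
  have hd1 : (1 : ℝ) ≤ di := by linarith
  have hdA : (1 : ℝ) ≤ di ^ A := one_le_pow₀ hd1
  have h1 : max 2 (CM * Nr * di ^ A) ≤ 2 * CM * Nr * di ^ A := by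
    have e1 : (1 : ℝ) ≤ CM * Nr * di ^ A := by
      have e2 : (1 : ℝ) ≤ CM * Nr := one_le_mul_of_one_le_of_one_le hCM hN
      exact one_le_mul_of_one_le_of_one_le e2 hdA
    refine max_le ?_ ?_
    · nlinarith
    · nlinarith
  have hyN : (1 : ℝ) ≤ y * Nr := one_le_mul_of_one_le_of_one_le hy hN
  have hyNd : (1 : ℝ) ≤ y * Nr * di := one_le_mul_of_one_le_of_one_le hyN hd1
  have hL : 0 ≤ Real.log (y * Nr * di) := Real.log_nonneg hyNd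
  have hM : 0 ≤ Real.log (2 * CM) := Real.log_nonneg (by linarith)
  have h2 : y * max 2 (CM * Nr * di ^ A) * Nr ≤ 2 * CM * (y * Nr * di) ^ (A + 2) := by
    have e1 : y * max 2 (CM * Nr * di ^ A) * Nr ≤ y * (2 * CM * Nr * di ^ A) * Nr := by
      gcongr
    refine e1.trans ?_
    have e3 : Nr ≤ Nr ^ (A + 1) := le_self_pow₀ hN (by omega)
    have e4 : y ≤ y ^ (A + 2) := le_self_pow₀ hy (by omega)
    have e5 : di ^ A ≤ di ^ (A + 2) := pow_le_pow_right₀ hd1 (by omega)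
    have e6 : y * (2 * CM * Nr * di ^ A) * Nr = 2 * CM * (y * (Nr * Nr) * di ^ A) := by ring
    have e7 : Nr * Nr ≤ Nr ^ (A + 2) := by
      calc Nr * Nr ≤ Nr ^ (A + 1) * Nr := by gcongr
        _ = Nr ^ (A + 2) := by ring
    rw [e6, mul_pow, mul_pow]
    gcongr
  have h0 : 0 < y * max 2 (CM * Nr * di ^ A) * Nr := by positivity
  have h3 : Real.log (y * max 2 (CM * Nr * di ^ A) * Nr) ≤
      Real.log (2 * CM) + (A + 2) * Real.log (y * Nr * di) := by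
    refine (Real.log_le_log h0 h2).trans ?_
    rw [Real.log_mul (by positivity) (by positivity), Real.log_pow]
    push_cast
    exact le_rfl
  have hA : (0 : ℝ) ≤ A := Nat.cast_nonneg A
  nlinarith [mul_nonneg hM hL, mul_nonneg hA hL]

/-- the weighted large sieve from the weighted inequality of Bessel -/
theorem lsd_w (hENG : T_ENG) (hTBS : T_TBS) (m : ℕ) (hm1 : 1 ≤ m) (ε : ℝ) (hε : 0 < ε)
    (χ : ℝ → ℝ) (hχ : Prof χ) (cM CM : ℝ) (AM : ℕ) (hcM : 0 < cM) (hCM : 1 ≤ CM) :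
    ∃ (C : ℝ) (K : ℕ), 0 < C ∧ ∀ (N : ℕ) [NeZero N] (D : Set (V m)), 1 ≤ N → DomZ m D →
    ∀ δ : ℝ, 0 < δ → δ ≤ 1 / 2 → ∀ (ι : Type) [Fintype ι] (W : ι → ENNReal) (lam : ι → ℕ → ℂ),
    (∀ i, W i ≠ ⊤) → (∀ Y : ℝ, 2 ≤ Y → CM * N * δ⁻¹ ^ AM ≤ Y → BESp m W lam N D χ cM δ Y) →
      LSDp m ε C K W lam N δ := by
  classical
  obtain ⟨CE, K, hCE, hE⟩ := hENG m hm1 ε hε
  obtain ⟨cT, CT, hcT, hCT, hTb⟩ := hTBS m χ hm1 hχ
  have hB : 0 < Real.log (2 * CM) + AM + 3 := by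
    have := Real.log_nonneg (show (1 : ℝ) ≤ 2 * CM by linarith)
    positivity
  refine ⟨(cM * cT ^ 2)⁻¹ * CE * (Real.log (2 * CM) + AM + 3) ^ K, K, by positivity, ?_⟩
  intro N _ D hN2 hD δ hδ hδ2 ι _ W lam hWt hBes y a hy ha
  have hdi : (2 : ℝ) ≤ δ⁻¹ := by
    rw [le_inv_comm₀ (by norm_num) hδ]
    linarith
  have hN1 : (1 : ℝ) ≤ N := by exact_mod_cast (by omega : 1 ≤ N)
  set Y : ℝ := max 2 (CM * N * δ⁻¹ ^ AM) with hY
  have hY2 : (2 : ℝ) ≤ Y := le_max_left _ _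
  have hY1 : CM * N * δ⁻¹ ^ AM ≤ Y := le_max_right _ _
  set κ : ℝ := cM * (cT * δ ^ (m ^ 2 - 1)) ^ 2 with hκ
  have hκ0 : 0 < κ := by positivity
  have hκT : κ ≤ cM * tb m χ δ ^ 2 := by
    rw [hκ]
    have := (hTb δ hδ hδ2).1
    gcongr
  -- the bound at each point
  have h1 : ∀ x0 : ℝ, 0 < x0 → ENNReal.ofReal κ *
      ∑ i, W i * ENNReal.ofReal (‖Bs m (lam i) a y δ x0‖ ^ 2 * x0⁻¹) ≤
      (∫⁻ g in DY D Y, Ed N D δ y x0 (mt g) ∂(hm m)) * ENNReal.ofReal x0⁻¹ := by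
    intro x0 hx0
    have e1 := hBes Y hY2 hY1 y a x0 hy ha hx0
    have e2 : ENNReal.ofReal κ * ∑ i, W i * ENNReal.ofReal (‖Bs m (lam i) a y δ x0‖ ^ 2) ≤
        ENNReal.ofReal (cM * tb m χ δ ^ 2) *
          ∑ i, W i * ENNReal.ofReal (‖Bs m (lam i) a y δ x0‖ ^ 2) :=
      mul_le_mul' (ENNReal.ofReal_le_ofReal hκT) le_rfl
    have e3 := e2.trans e1
    have e4 : ENNReal.ofReal κ * ∑ i, W i * ENNReal.ofReal (‖Bs m (lam i) a y δ x0‖ ^ 2 * x0⁻¹) =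
        (ENNReal.ofReal κ * ∑ i, W i * ENNReal.ofReal (‖Bs m (lam i) a y δ x0‖ ^ 2)) *
          ENNReal.ofReal x0⁻¹ := by
      have e5 : ∀ i, W i * ENNReal.ofReal (‖Bs m (lam i) a y δ x0‖ ^ 2 * x0⁻¹) =
          W i * ENNReal.ofReal (‖Bs m (lam i) a y δ x0‖ ^ 2) * ENNReal.ofReal x0⁻¹ := fun i => by
        rw [ENNReal.ofReal_mul (by positivity), mul_assoc]
      simp only [e5]
      rw [← Finset.sum_mul]
      ring
    rw [e4]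
    exact mul_le_mul' e3 le_rfl
  -- integrate
  have h2 : ENNReal.ofReal κ * ∑ i, W i * ∫⁻ x0 in Set.Ioi (0 : ℝ),
      ENNReal.ofReal (‖Bs m (lam i) a y δ x0‖ ^ 2 * x0⁻¹) ≤
      ENNReal.ofReal (CE * δ ^ (m ^ 2) * (N : ℝ) ^ ((m : ℝ) + ε) *
        (1 + Real.log (y * Y * N)) ^ K * y ^ (2 * m) * (1 + δ ^ m * y ^ 2 / N) ^ m) := by
    refine le_trans ?_ (hE N D hN2 hD y Y δ hy hY2 hδ hδ2)
    have h3 : ∀ i, W i * ∫⁻ x0 in Set.Ioi (0 : ℝ),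
        ENNReal.ofReal (‖Bs m (lam i) a y δ x0‖ ^ 2 * x0⁻¹) = ∫⁻ x0 in Set.Ioi (0 : ℝ),
        W i * ENNReal.ofReal (‖Bs m (lam i) a y δ x0‖ ^ 2 * x0⁻¹) := fun i =>
      (lintegral_const_mul' _ _ (hWt i)).symm
    simp only [h3]
    refine (mul_le_mul' le_rfl (ls_sum _ Finset.univ _)).trans ?_
    rw [← lintegral_const_mul' _ _ ENNReal.ofReal_ne_top]
    exact setLIntegral_mono' measurableSet_Ioi fun x0 hx0 => h1 x0 hx0
  set S : ENNReal := ∑ i, W i * ∫⁻ x0 in Set.Ioi (0 : ℝ),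
      ENNReal.ofReal (‖Bs m (lam i) a y δ x0‖ ^ 2 * x0⁻¹) with hSdef
  have hk1 : ENNReal.ofReal κ ≠ 0 := by
    rw [Ne, ENNReal.ofReal_eq_zero, not_le]
    exact hκ0
  have h3 : S = ENNReal.ofReal κ⁻¹ * (ENNReal.ofReal κ * S) := by
    rw [ENNReal.ofReal_inv_of_pos hκ0, ← mul_assoc, ENNReal.inv_mul_cancel hk1
      ENNReal.ofReal_ne_top, one_mul]
  rw [h3]
  refine (mul_le_mul' le_rfl h2).trans ?_
  rw [← ENNReal.ofReal_mul (by positivity)]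
  apply ENNReal.ofReal_le_ofReal
  have hlog0 : 0 ≤ Real.log (y * N * δ⁻¹) := by
    apply Real.log_nonneg
    have e2 : (1 : ℝ) ≤ y * N := one_le_mul_of_one_le_of_one_le hy hN1
    exact one_le_mul_of_one_le_of_one_le e2 (by linarith)
  have h4 := ls_log (A := AM) hCM hN1 hy hdi
  rw [← hY] at h4
  have h5 : 0 ≤ 1 + Real.log (y * Y * N) := by
    have e1 : (1 : ℝ) ≤ y * Y := one_le_mul_of_one_le_of_one_le hy (by linarith)
    have e2 : (1 : ℝ) ≤ y * Y * N := one_le_mul_of_one_le_of_one_le e1 hN1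
    have := Real.log_nonneg e2
    linarith
  have h6 : (1 + Real.log (y * Y * N)) ^ K ≤
      (Real.log (2 * CM) + AM + 3) ^ K * (1 + Real.log (y * N * δ⁻¹)) ^ K := by
    rw [← mul_pow]
    exact pow_le_pow_left₀ h5 h4 K
  have h7 : κ⁻¹ * δ ^ (m ^ 2) = (cM * cT ^ 2)⁻¹ * (δ ^ 2 * δ⁻¹ ^ (m ^ 2)) := by
    rw [hκ]
    have hm2 : 1 ≤ m ^ 2 := Nat.one_le_pow _ _ (by omega)
    obtain ⟨n, hn⟩ : ∃ n, m ^ 2 = n + 1 := ⟨m ^ 2 - 1, by omega⟩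
    rw [hn, Nat.add_sub_cancel, inv_pow]
    field_simp
    ring
  have hX : 0 ≤ (N : ℝ) ^ ((m : ℝ) + ε) := by positivity
  calc κ⁻¹ * (CE * δ ^ (m ^ 2) * (N : ℝ) ^ ((m : ℝ) + ε) *
        (1 + Real.log (y * Y * N)) ^ K * y ^ (2 * m) * (1 + δ ^ m * y ^ 2 / N) ^ m)
      = (κ⁻¹ * δ ^ (m ^ 2)) * (CE * (N : ℝ) ^ ((m : ℝ) + ε) * y ^ (2 * m) *
        (1 + δ ^ m * y ^ 2 / N) ^ m) * (1 + Real.log (y * Y * N)) ^ K := by ring
    _ ≤ (κ⁻¹ * δ ^ (m ^ 2)) * (CE * (N : ℝ) ^ ((m : ℝ) + ε) * y ^ (2 * m) *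
        (1 + δ ^ m * y ^ 2 / N) ^ m) *
          ((Real.log (2 * CM) + AM + 3) ^ K * (1 + Real.log (y * N * δ⁻¹)) ^ K) := by
        have : 0 ≤ (κ⁻¹ * δ ^ (m ^ 2)) * (CE * (N : ℝ) ^ ((m : ℝ) + ε) * y ^ (2 * m) *
            (1 + δ ^ m * y ^ 2 / N) ^ m) := by positivity
        exact mul_le_mul_of_nonneg_left h6 this
    _ = _ := by
        rw [h7]
        ring

/-- the fourth moment of the Dirichlet polynomials from the large sieve -/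
theorem lt4_w (hG : T_GAL) (hS : T_SQD) (m : ℕ) : ∃ C' : ℝ, 0 < C' ∧
    ∀ (ε C : ℝ) (K : ℕ) (ι : Type) [Fintype ι] (W : ι → ENNReal) (lam : ι → ℕ → ℂ) (N : ℕ)
      (δ : ℝ), 0 < δ → δ ≤ 1 / 2 → LSDp m ε C K W lam N δ →
      LT4p m ε (C' * C) K W lam N δ := by
  obtain ⟨C', hC', hg⟩ := hG
  refine ⟨C', hC', ?_⟩
  intro ε C K ι _ W lam N δ hδ hδ1 h y a hy ha
  have h0 := h y a hy ha
  have h1 : ∀ i, ∫⁻ t in Set.Icc (-δ⁻¹) δ⁻¹, ENNReal.ofReal (‖DP m (lam i) a y t‖ ^ 4) ≤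
      ENNReal.ofReal (C' * δ⁻¹ ^ 2) *
        ∫⁻ x0 in Set.Ioi (0 : ℝ), ENNReal.ofReal (‖Bs m (lam i) a y δ x0‖ ^ 2 * x0⁻¹) := by
    intro i
    have e : ∀ t : ℝ, ‖DP m (lam i) a y t‖ ^ 4 = ‖∑ k ∈ Finset.Icc 1 ⌊y ^ 2⌋₊, bq m (lam i) a k *
        (k : ℂ) ^ (-((t : ℂ) * Complex.I))‖ ^ 2 := by
      intro t
      rw [← hS m (lam i) a y t hy ha, norm_pow]
      ring
    simp only [e]
    exact hg δ hδ hδ1 ⌊y ^ 2⌋₊ (bq m (lam i) a)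
  calc ∑ i, W i * ∫⁻ t in Set.Icc (-δ⁻¹) δ⁻¹, ENNReal.ofReal (‖DP m (lam i) a y t‖ ^ 4)
      ≤ ∑ i, W i * (ENNReal.ofReal (C' * δ⁻¹ ^ 2) *
        ∫⁻ x0 in Set.Ioi (0 : ℝ), ENNReal.ofReal (‖Bs m (lam i) a y δ x0‖ ^ 2 * x0⁻¹)) :=
        Finset.sum_le_sum fun i _ => mul_le_mul' le_rfl (h1 i)
    _ = ENNReal.ofReal (C' * δ⁻¹ ^ 2) * ∑ i, W i *
        ∫⁻ x0 in Set.Ioi (0 : ℝ), ENNReal.ofReal (‖Bs m (lam i) a y δ x0‖ ^ 2 * x0⁻¹) := by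
        rw [Finset.mul_sum]
        refine Finset.sum_congr rfl fun i _ => ?_
        ring
    _ ≤ ENNReal.ofReal (C' * δ⁻¹ ^ 2) * ENNReal.ofReal (C * δ ^ 2 * δ⁻¹ ^ (m ^ 2) *
        (N : ℝ) ^ ((m : ℝ) + ε) *
        (1 + Real.log (y * N * δ⁻¹)) ^ K * y ^ (2 * m) * (1 + δ ^ m * y ^ 2 / N) ^ m) := by
        gcongr
    _ = ENNReal.ofReal (C' * C * δ⁻¹ ^ (m ^ 2) * (N : ℝ) ^ ((m : ℝ) + ε) *
        (1 + Real.log (y * N * δ⁻¹)) ^ K * y ^ (2 * m) * (1 + δ ^ m * y ^ 2 / N) ^ m) := by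
        rw [← ENNReal.ofReal_mul (by positivity)]
        congr 1
        have e2 : δ⁻¹ ^ 2 * δ ^ 2 = 1 := by
          rw [← mul_pow, inv_mul_cancel₀ hδ.ne', one_pow]
        calc _ = (δ⁻¹ ^ 2 * δ ^ 2) * (C' * C * δ⁻¹ ^ (m ^ 2) * (N : ℝ) ^ ((m : ℝ) + ε) *
            (1 + Real.log (y * N * δ⁻¹)) ^ K * y ^ (2 * m) * (1 + δ ^ m * y ^ 2 / N) ^ m) := by ring
          _ = _ := by rw [e2, one_mul]

/-- the sum of the weights -/
theorem crd_w (m : ℕ) (ε : ℝ) (hε : 0 < ε) (C : ℝ) (hC : 0 < C) (K : ℕ) : ∃ C2 : ℝ, 0 < C2 ∧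
    ∀ (ι : Type) [Fintype ι] (W : ι → ENNReal) (lam : ι → ℕ → ℂ) (N : ℕ) (δ : ℝ), 1 ≤ N →
      0 < δ → δ ≤ 1 / 2 → (∀ i, lam i 1 = 1) → LT4p m (ε / 2) C K W lam N δ →
      (∑ i, W i) * ENNReal.ofReal δ⁻¹ ≤
        ENNReal.ofReal (C2 * ((N : ℝ) * δ⁻¹) ^ ε * (N : ℝ) ^ m * δ⁻¹ ^ (m ^ 2)) := by
  obtain ⟨C1, hC1, hlog⟩ := Pool.Agent.H27.L1.H37.GHY.log_pow_le K (half_pos hε)
  refine ⟨C * C1 * 2 ^ m, by positivity, ?_⟩
  intro ι _ W lam N δ hN1 hδ hδ' hlam H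
  have hN : (1 : ℝ) ≤ N := by exact_mod_cast hN1
  have hN0 : (0 : ℝ) < N := by linarith
  have hδi : 0 < δ⁻¹ := inv_pos.2 hδ
  have hδ2 : (2 : ℝ) ≤ δ⁻¹ := by
    rw [le_inv_comm₀ (by norm_num) hδ]
    linarith
  let a : ℕ → ℂ := fun n => if n = 1 then 1 else 0
  have ha : Coe 1 a := by
    constructor
    · intro n
      show ‖(if n = 1 then (1 : ℂ) else 0)‖ ≤ 1
      split_ifs <;> simp
    · intro n hn
      have : n = 1 := by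
        by_contra h
        exact hn (if_neg h)
      subst this
      norm_num
  have h1 := H 1 a le_rfl ha
  have hDP : ∀ i t, DP m (lam i) a 1 t = 1 := by
    intro i t
    unfold DP tl
    rw [Nat.floor_one, Finset.Icc_self, Finset.sum_singleton, hlam i]
    simp [a]
  have h2 : ∀ i, ∫⁻ t in Set.Icc (-δ⁻¹) δ⁻¹, ENNReal.ofReal (‖DP m (lam i) a 1 t‖ ^ 4) =
      ENNReal.ofReal (2 * δ⁻¹) := by
    intro i
    simp only [hDP, norm_one, one_pow, ENNReal.ofReal_one]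
    rw [setLIntegral_one, Real.volume_Icc]
    congr 1
    ring
  have h1' : (∑ i, W i) * ENNReal.ofReal (2 * δ⁻¹) ≤
      ENNReal.ofReal (C * δ⁻¹ ^ (m ^ 2) * (N : ℝ) ^ ((m : ℝ) + ε / 2) *
        (1 + Real.log (1 * N * δ⁻¹)) ^ K * 1 ^ (2 * m) * (1 + δ ^ m * 1 ^ 2 / N) ^ m) := by
    refine le_trans (le_of_eq ?_) h1
    rw [Finset.sum_mul]
    exact Finset.sum_congr rfl fun i _ => by rw [h2 i]
  have hz1 : 1 ≤ (N : ℝ) * δ⁻¹ := by nlinarith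
  have hB : 0 ≤ C * δ⁻¹ ^ (m ^ 2) * (N : ℝ) ^ ((m : ℝ) + ε / 2) *
        (1 + Real.log (1 * N * δ⁻¹)) ^ K * 1 ^ (2 * m) * (1 + δ ^ m * 1 ^ 2 / N) ^ m := by
    have h5 : 0 ≤ 1 + Real.log (1 * N * δ⁻¹) := by
      have := Real.log_nonneg (show (1 : ℝ) ≤ 1 * N * δ⁻¹ by rw [one_mul]; exact hz1)
      linarith
    positivity
  have h4 : (∑ i, W i) * ENNReal.ofReal δ⁻¹ ≤ (∑ i, W i) * ENNReal.ofReal (2 * δ⁻¹) :=
    mul_le_mul' le_rfl (ENNReal.ofReal_le_ofReal (by linarith))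
  refine h4.trans (h1'.trans (ENNReal.ofReal_le_ofReal ?_))
  have h5 : (1 + Real.log (1 * N * δ⁻¹)) ^ K ≤ C1 * ((N : ℝ) * δ⁻¹) ^ (ε / 2) := by
    rw [one_mul]
    exact hlog _ hz1
  have h6 : (1 + δ ^ m * 1 ^ 2 / N) ^ m ≤ (2 : ℝ) ^ m := by
    refine pow_le_pow_left₀ (by positivity) ?_ m
    have h7 : δ ^ m ≤ 1 := pow_le_one₀ hδ.le (by linarith)
    have h8 : δ ^ m * 1 ^ 2 / N ≤ 1 := by
      rw [div_le_one hN0]
      linarith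
    linarith
  have h7 : (N : ℝ) ^ ((m : ℝ) + ε / 2) ≤ (N : ℝ) ^ m * ((N : ℝ) * δ⁻¹) ^ (ε / 2) := by
    rw [Real.rpow_add hN0, Real.rpow_natCast]
    refine mul_le_mul_of_nonneg_left ?_ (by positivity)
    refine Real.rpow_le_rpow hN0.le ?_ (half_pos hε).le
    nlinarith
  have hE : ((N : ℝ) * δ⁻¹) ^ (ε / 2) * ((N : ℝ) * δ⁻¹) ^ (ε / 2) = ((N : ℝ) * δ⁻¹) ^ ε := by
    rw [← Real.rpow_add (by linarith), add_halves]
  have h8 : 0 ≤ 1 + Real.log (1 * N * δ⁻¹) := by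
    have := Real.log_nonneg (show (1 : ℝ) ≤ 1 * N * δ⁻¹ by rw [one_mul]; exact hz1)
    linarith
  calc C * δ⁻¹ ^ (m ^ 2) * (N : ℝ) ^ ((m : ℝ) + ε / 2) *
        (1 + Real.log (1 * N * δ⁻¹)) ^ K * 1 ^ (2 * m) * (1 + δ ^ m * 1 ^ 2 / N) ^ m
      ≤ C * δ⁻¹ ^ (m ^ 2) * ((N : ℝ) ^ m * ((N : ℝ) * δ⁻¹) ^ (ε / 2)) *
        (C1 * ((N : ℝ) * δ⁻¹) ^ (ε / 2)) * 1 ^ (2 * m) * 2 ^ m := by
        gcongr
    _ = C * C1 * 2 ^ m * (((N : ℝ) * δ⁻¹) ^ (ε / 2) * ((N : ℝ) * δ⁻¹) ^ (ε / 2)) *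
        (N : ℝ) ^ m * δ⁻¹ ^ (m ^ 2) := by
        rw [one_pow]
        ring
    _ = _ := by rw [hE]

open Pool.Agent.H27.L1.H11.GHY in
/-- the fourth moment of the truncated L-functions -/
theorem dyd_w (m : ℕ) (ε A : ℝ) (hε : 0 < ε) (hA : 1 ≤ A) (C : ℝ) (hC : 0 < C) (K : ℕ) :
    ∃ C3 : ℝ, 0 < C3 ∧ ∀ (ι : Type) [Fintype ι] (W : ι → ENNReal) (lam : ι → ℕ → ℂ) (N : ℕ)
      (δ : ℝ), 1 ≤ N → 0 < δ → δ ≤ 1 / 2 → (∀ i, W i ≠ ⊤) → LT4p m ε C K W lam N δ →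
      ∀ X : ℝ, 1 ≤ X →
        X ≤ A * ((N : ℝ) ^ ((1 : ℝ) / 2) * δ⁻¹ ^ ((m : ℝ) / 2)) * ((N : ℝ) * δ⁻¹) ^ ε →
      ∀ τ : ℝ,
        ∑ i, W i * ∫⁻ t in Set.Icc (-δ⁻¹) δ⁻¹, ENNReal.ofReal (‖SD (lam i) X (t + τ)‖ ^ 4) ≤
          ENNReal.ofReal (C3 * ((N : ℝ) * δ⁻¹) ^ ((2 * m + 4) * ε) * (N : ℝ) ^ m *
            δ⁻¹ ^ (m ^ 2)) := by
  obtain ⟨C2, hC2, hfin⟩ := final m K hε hA
  refine ⟨2 ^ (2 * m) * C * C2, by positivity, ?_⟩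
  intro ι _ W lam N δ hN2' hδ0 hδ1 hWt hlt X hX1 hXle τ
  obtain ⟨M, hM1, hM2, hM3⟩ := blocks hX1
  have hd0 : 0 < δ⁻¹ := inv_pos.2 hδ0
  have hd2 : 2 ≤ δ⁻¹ := by
    rw [le_inv_comm₀ (by norm_num) hδ0]
    rw [one_div] at hδ1
    exact hδ1
  have hN2 : (1 : ℝ) ≤ N := by exact_mod_cast hN2'
  have hN0 : (0 : ℝ) < N := by linarith
  have hX0 : 0 < X := by linarith
  have hNd : 1 ≤ (N : ℝ) * δ⁻¹ := by nlinarith
  set Wt : ℝ := C * δ⁻¹ ^ (m ^ 2) * (N : ℝ) ^ ((m : ℝ) + ε) *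
    ((1 + Real.log (X * N * δ⁻¹)) ^ K * (1 + δ ^ m * X ^ 2 / N) ^ m) with hWd
  let y : ℕ → ℝ := fun j => X / 2 ^ j
  have hy1 : ∀ j < M, 1 ≤ y j := by
    intro j hj
    show 1 ≤ X / 2 ^ j
    rw [le_div_iff₀ (by positivity), one_mul]
    exact hM2 j hj
  have hyX : ∀ j, y j ≤ X := fun j => div_le_self hX0.le (one_le_pow₀ one_le_two)
  have hlog : ∀ z : ℝ, 1 ≤ z → 0 ≤ Real.log (z * N * δ⁻¹) := by
    intro z hz
    apply Real.log_nonneg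
    rw [mul_assoc]
    nlinarith
  have hW0 : 0 ≤ Wt := by
    have := hlog X hX1
    positivity
  let G : ι → ℕ → ℝ → ENNReal := fun i j t =>
    ENNReal.ofReal (‖DP m (lam i) (blk m τ (y j)) (y j) t‖ ^ 4)
  have hG : ∀ i j, Measurable (G i j) := by
    intro i j
    exact ((cont_DP m (lam i) (blk m τ (y j)) (y j)).norm.pow 4).measurable.ennreal_ofReal
  have hb : ∀ j < M, ∑ i, W i * ∫⁻ t in Set.Icc (-δ⁻¹) δ⁻¹, G i j t ≤
      ENNReal.ofReal (Wt * y j ^ (2 * m)) := by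
    intro j hj
    have hyj := hy1 j hj
    have hyj0 : 0 < y j := by linarith
    refine (hlt (y j) (blk m τ (y j)) hyj
      (coe_blk m τ hyj)).trans (ENNReal.ofReal_le_ofReal ?_)
    have h1 : 0 ≤ Real.log (y j * N * δ⁻¹) := hlog _ hyj
    have h2 : Real.log (y j * N * δ⁻¹) ≤ Real.log (X * N * δ⁻¹) := by
      apply Real.log_le_log (by positivity)
      have := hyX j
      gcongr
    have h3 : (1 + Real.log (y j * N * δ⁻¹)) ^ K ≤ (1 + Real.log (X * N * δ⁻¹)) ^ K :=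
      pow_le_pow_left₀ (by linarith) (by linarith) K
    have h4 : (1 + δ ^ m * y j ^ 2 / N) ^ m ≤ (1 + δ ^ m * X ^ 2 / N) ^ m := by
      have := hyX j
      gcongr
    have h5 : (1 + Real.log (y j * N * δ⁻¹)) ^ K * (1 + δ ^ m * y j ^ 2 / N) ^ m ≤
        (1 + Real.log (X * N * δ⁻¹)) ^ K * (1 + δ ^ m * X ^ 2 / N) ^ m := by
      refine mul_le_mul h3 h4 (by positivity) ?_
      have := hlog X hX1
      positivity
    calc C * δ⁻¹ ^ (m ^ 2) * (N : ℝ) ^ ((m : ℝ) + ε) * (1 + Real.log (y j * N * δ⁻¹)) ^ K *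
          y j ^ (2 * m) * (1 + δ ^ m * y j ^ 2 / N) ^ m
        = C * δ⁻¹ ^ (m ^ 2) * (N : ℝ) ^ ((m : ℝ) + ε) *
          ((1 + Real.log (y j * N * δ⁻¹)) ^ K * (1 + δ ^ m * y j ^ 2 / N) ^ m) *
            y j ^ (2 * m) := by ring
      _ ≤ Wt * y j ^ (2 * m) := by
        refine mul_le_mul_of_nonneg_right ?_ (by positivity)
        exact mul_le_mul_of_nonneg_left h5 (by positivity)
  let cj : ℕ → ℝ := fun j => (y j / 2) ^ (-((m : ℝ) / 2))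
  have hcj0 : ∀ j < M, 0 ≤ cj j := by
    intro j hj
    have := hy1 j hj
    exact Real.rpow_nonneg (by linarith) _
  have hcy : ∀ j < M, cj j ^ 4 * y j ^ (2 * m) = 2 ^ (2 * m) := by
    intro j hj
    have hyj : 0 < y j := by
      have := hy1 j hj
      linarith
    have h1 : cj j ^ 4 = ((y j / 2) ^ (2 * m))⁻¹ := by
      show ((y j / 2) ^ (-((m : ℝ) / 2))) ^ 4 = _
      rw [← Real.rpow_natCast, ← Real.rpow_mul (by positivity), ← Real.rpow_natCast,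
        ← Real.rpow_neg (by positivity)]
      congr 1
      push_cast
      ring
    rw [h1, div_pow, inv_div]
    have : y j ^ (2 * m) ≠ 0 := (pow_pos hyj _).ne'
    field_simp
  have hpt : ∀ i t, ENNReal.ofReal (‖SD (lam i) X (t + τ)‖ ^ 4) ≤
      ∑ j ∈ Finset.range M, ENNReal.ofReal ((M : ℝ) ^ 3 * cj j ^ 4) * G i j t := by
    intro i t
    have h1 : SD (lam i) X (t + τ) = ∑ j ∈ Finset.range M,
        ((cj j : ℝ) : ℂ) * DP m (lam i) (blk m τ (y j)) (y j) t := by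
      unfold SD
      rw [steps' (fun n => lam i n * (n : ℂ) ^ (-(1 / 2 + ((t + τ : ℝ) : ℂ) * Complex.I)))
        hX0.le hM1]
      refine Finset.sum_congr rfl fun j hj => ?_
      exact block m (lam i) τ t (hy1 j (Finset.mem_range.1 hj))
    have h2 : ‖SD (lam i) X (t + τ)‖ ≤ ∑ j ∈ Finset.range M,
        cj j * ‖DP m (lam i) (blk m τ (y j)) (y j) t‖ := by
      rw [h1]
      refine (norm_sum_le _ _).trans (le_of_eq ?_)
      refine Finset.sum_congr rfl fun j hj => ?_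
      rw [norm_mul, Complex.norm_real, Real.norm_eq_abs,
        abs_of_nonneg (hcj0 j (Finset.mem_range.1 hj))]
    have h3 : ‖SD (lam i) X (t + τ)‖ ^ 4 ≤ ∑ j ∈ Finset.range M,
        ((M : ℝ) ^ 3 * cj j ^ 4) * ‖DP m (lam i) (blk m τ (y j)) (y j) t‖ ^ 4 := by
      have h4 := pow_sum_le_card_mul_sum_pow (s := Finset.range M)
        (f := fun j => cj j * ‖DP m (lam i) (blk m τ (y j)) (y j) t‖)
        (fun j hj => mul_nonneg (hcj0 j (Finset.mem_range.1 hj)) (norm_nonneg _)) 3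
      rw [Finset.card_range] at h4
      refine (pow_le_pow_left₀ (norm_nonneg _) h2 4).trans (h4.trans (le_of_eq ?_))
      rw [Finset.mul_sum]
      refine Finset.sum_congr rfl fun j _ => ?_
      ring
    refine (ENNReal.ofReal_le_ofReal h3).trans (le_of_eq ?_)
    rw [ENNReal.ofReal_sum_of_nonneg]
    · refine Finset.sum_congr rfl fun j _ => ?_
      rw [ENNReal.ofReal_mul (by positivity)]
    · intro j _
      positivity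
  calc ∑ i, W i * ∫⁻ t in Set.Icc (-δ⁻¹) δ⁻¹, ENNReal.ofReal (‖SD (lam i) X (t + τ)‖ ^ 4)
      ≤ ∑ i, W i * ∫⁻ t in Set.Icc (-δ⁻¹) δ⁻¹, ∑ j ∈ Finset.range M,
          ENNReal.ofReal ((M : ℝ) ^ 3 * cj j ^ 4) * G i j t :=
        Finset.sum_le_sum fun i _ => mul_le_mul' le_rfl (lintegral_mono fun t => hpt i t)
    _ = ∑ i, ∑ j ∈ Finset.range M, ENNReal.ofReal ((M : ℝ) ^ 3 * cj j ^ 4) *
          (W i * ∫⁻ t in Set.Icc (-δ⁻¹) δ⁻¹, G i j t) := by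
        refine Finset.sum_congr rfl fun i _ => ?_
        rw [lintegral_finsetSum _ fun j _ => (hG i j).const_mul _, Finset.mul_sum]
        refine Finset.sum_congr rfl fun j _ => ?_
        rw [lintegral_const_mul' _ _ ENNReal.ofReal_ne_top]
        ring
    _ = ∑ j ∈ Finset.range M, ENNReal.ofReal ((M : ℝ) ^ 3 * cj j ^ 4) *
          ∑ i, W i * ∫⁻ t in Set.Icc (-δ⁻¹) δ⁻¹, G i j t := by
        rw [Finset.sum_comm]
        refine Finset.sum_congr rfl fun j _ => ?_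
        rw [Finset.mul_sum]
    _ ≤ ∑ j ∈ Finset.range M, ENNReal.ofReal ((M : ℝ) ^ 3 * cj j ^ 4) *
          ENNReal.ofReal (Wt * y j ^ (2 * m)) :=
        Finset.sum_le_sum fun j hj => mul_le_mul' le_rfl (hb j (Finset.mem_range.1 hj))
    _ = ∑ j ∈ Finset.range M, ENNReal.ofReal ((M : ℝ) ^ 3 * 2 ^ (2 * m) * Wt) := by
        refine Finset.sum_congr rfl fun j hj => ?_
        rw [← ENNReal.ofReal_mul (by positivity)]
        congr 1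
        rw [← hcy j (Finset.mem_range.1 hj)]
        ring
    _ = ENNReal.ofReal ((M : ℝ) ^ 4 * 2 ^ (2 * m) * Wt) := by
        rw [Finset.sum_const, Finset.card_range, nsmul_eq_mul, ← ENNReal.ofReal_natCast,
          ← ENNReal.ofReal_mul (by positivity)]
        congr 1
        ring
    _ ≤ ENNReal.ofReal (2 ^ (2 * m) * C * C2 * ((N : ℝ) * δ⁻¹) ^ ((2 * m + 4) * ε) *
          (N : ℝ) ^ m * δ⁻¹ ^ (m ^ 2)) := by
        apply ENNReal.ofReal_le_ofReal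
        have h1 := hfin N δ⁻¹ X M hN2 hd2 hX1 hXle (Nat.cast_nonneg _) hM3
        rw [inv_inv] at h1
        calc (M : ℝ) ^ 4 * 2 ^ (2 * m) * Wt
            = 2 ^ (2 * m) * C * δ⁻¹ ^ (m ^ 2) * ((M : ℝ) ^ 4 * ((N : ℝ) ^ ((m : ℝ) + ε) *
              ((1 + Real.log (X * N * δ⁻¹)) ^ K * (1 + δ ^ m * X ^ 2 / N) ^ m))) := by
              rw [hWd]
              ring
          _ ≤ 2 ^ (2 * m) * C * δ⁻¹ ^ (m ^ 2) *
              (C2 * (((N : ℝ) * δ⁻¹) ^ ((2 * m + 4) * ε) * (N : ℝ) ^ m)) :=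
              mul_le_mul_of_nonneg_left h1 (by positivity)
          _ = _ := by ring

end Pool.Agent.H27.L1.H23.GHK
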