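import Pool.Agent.H27.L1.H23.GHK.LSM

/-!
Row LSK of the board ghk (MP_52e316_nt): the sieve inequality for forms which generate orthogonal
spaces.
-/

set_option autoImplicit false

namespace Pool.Agent.H27.L1.H23.GHK

open MeasureTheory Filter Pool.Agent.H27.L1.H34.GM Pool.Agent.H27.L1.H34.GZ Pool.Agent.H27.L1.H34.GU Pool.Agent.H27.L1.H34.GA
  Pool.Agent.H27.L1.H68.GHY
open Pool.Agent.H27.L1.H68.GHK (rt Bn Hn OrS)

theorem bn_ball {m : ℕ} (r : ℝ) :
    Bn m r = Metric.closedBall (fun i j => (1 : Mat m) i j : V m) r := by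
  ext u
  rw [Metric.mem_closedBall, dist_eq_norm]
  rfl

theorem hn_nn {m N : ℕ} [NeZero N] (r : ℝ) (D : Set (V m)) (F : Mat m → VN m N → ℂ) :
    0 ≤ Hn r D F := integral_nonneg fun _ => by positivity

/-- scalar products as integrals over the product -/
theorem ip_prod {m N : ℕ} [NeZero N] [MeasurableSpace (VN m N)]
    [MeasurableSingletonClass (VN m N)] {D : Set (V m)} [IsFiniteMeasure ((hm m).restrict D)]
    {G H : V m × VN m N → ℂ} (hG : Measurable G) (hH : Measurable H) {M : ℝ}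
    (h1 : ∀ p, ‖G p‖ ≤ M) (h2 : ∀ p, ‖H p‖ ≤ M) :
    ∫ p, G p * (starRingEnd ℂ) (H p) ∂(((hm m).restrict D).prod
      (Measure.count : Measure (VN m N))) =
      ∑ x, ∫ z in D, G (z, x) * (starRingEnd ℂ) (H (z, x)) ∂(hm m) := by
  have hi : Integrable (fun p => G p * (starRingEnd ℂ) (H p)) (((hm m).restrict D).prod
      (Measure.count : Measure (VN m N))) := by
    refine Pool.Agent.H27.L1.H31.GK.int_bdd
      (hG.mul (Complex.continuous_conj.measurable.comp hH)) (M := M * M) fun p => ?_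
    rw [norm_mul, RCLike.norm_conj]
    exact mul_le_mul (h1 p) (h2 p) (norm_nonneg _) ((norm_nonneg _).trans (h1 p))
  rw [integral_prod_symm _ hi, integral_count]

theorem pf_LSK (hMSR : T_MSR) (hHAR : T_HAR) (hVLM : T_VLM) (hBIA : T_BIA) (hKCD : T_KCD)
    (hKMD : T_KMD) (hOCD : T_OCD) (hDYM : T_DYM) (hMSD : T_MSD)
    (hTRF : Pool.Agent.H27.L1.H68.GHK.T_TRF)
    (hIPT : Pool.Agent.H27.L1.H68.GHK.T_IPT) (hQBD : Pool.Agent.H27.L1.H68.GHK.T_QBD) :
    Pool.Agent.H27.L1.H68.GHK.T_LSK := by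
  classical
  intro m χ r hm1 hχ hr
  obtain ⟨cM, CM, AM, hcM, hCM, hMS⟩ := hMSD m χ hm1 hχ
  obtain ⟨CT, hCT, hTR⟩ := hTRF m hm1
  obtain ⟨cQ, CQ, hcQ, hCQ, hQB⟩ := hQBD m χ r hm1 hχ hr
  have hm1' : (1 : ℝ) ≤ m := by exact_mod_cast hm1
  have hm0 : (0 : ℝ) < m := by linarith
  obtain ⟨r0, hr0d⟩ : ∃ r0 : ℝ, r0 = min cQ (1 / (16 * m)) := ⟨_, rfl⟩
  have hr0 : 0 < r0 := by rw [hr0d]; exact lt_min hcQ (by positivity)
  have hr0Q : r0 ≤ cQ := by rw [hr0d]; exact min_le_left _ _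
  have hr0m : 16 * m * r0 ≤ 1 := by
    have h1 : r0 ≤ 1 / (16 * m) := by rw [hr0d]; exact min_le_right _ _
    rw [le_div_iff₀ (by positivity)] at h1
    linarith
  obtain ⟨B, hBd⟩ : ∃ B : Set (V m), B = Bn m r0 := ⟨_, rfl⟩
  have hBm : MeasurableSet B := by
    rw [hBd, bn_ball]
    exact Metric.isClosed_closedBall.measurableSet
  have hBs : ∀ u ∈ B, 16 * m * sz (mt u - 1) ≤ 1 := by
    intro u hu
    rw [hBd] at hu
    have h1 : sz (mt u - 1) ≤ r0 := hu
    refine (mul_le_mul_of_nonneg_left h1 (by positivity)).trans hr0m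
  have hBdet : ∀ u ∈ B, (mt u).det ≠ 0 := by
    intro u hu
    have h1 := hBs u hu
    have h2 := Pool.Agent.H27.L1.H90.GA.sz_nn (mt u - 1)
    have h3 : 0 ≤ (m : ℝ) * sz (mt u - 1) := by positivity
    exact (Pool.Agent.H27.L1.H90.GA.inv_near hm1 (le_refl (sz (mt u - 1))) (by linarith)).1
  have hBfin : volume B ≠ ⊤ := by
    rw [hBd, bn_ball]
    exact measure_closedBall_lt_top.ne
  obtain ⟨vol, hvol⟩ : ∃ vol : ℝ, vol = (volume B).toReal := ⟨_, rfl⟩
  have hvol0 : 0 < vol := by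
    rw [hvol]
    refine ENNReal.toReal_pos ?_ hBfin
    rw [hBd, bn_ball]
    exact (Metric.measure_closedBall_pos volume _ hr0).ne'
  refine ⟨min cQ (cM / (1 + CT)), max CM (CQ / (cM ^ 2 * vol ^ 2)), AM,
    lt_min hcQ (by positivity), hCM.trans (le_max_left _ _), ?_⟩
  intro N _ T D hS ι _ _ F lam P hF hOr δ hδ hδ2 hδc y a x0 Y hy ha hx0 hY
  have hD := hS.dom
  have hDm := hD.meas
  have hDdet : ∀ z ∈ D, (mt z).det ≠ 0 := fun z hz =>
    Pool.Agent.H27.L1.H55.GHY.hsd_det hm1 (hD.shell z hz).1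
  have hN1 : (0 : ℝ) < N := by
    have : 0 < N := Nat.pos_of_ne_zero (NeZero.ne N)
    exact_mod_cast this
  have hYM : CM * N * δ⁻¹ ^ AM ≤ Y := by
    refine le_trans ?_ hY
    have : CM ≤ max CM (CQ / (cM ^ 2 * vol ^ 2)) := le_max_left _ _
    gcongr
  by_cases htb : tb m χ δ = 0
  · rw [htb]
    simp
  have htb0 : 0 < tb m χ δ := lt_of_le_of_ne (norm_nonneg _) (Ne.symm htb)
  obtain ⟨CB, hCB1, hCB⟩ := hBIA m χ hm1 hχ
  have hk : Tg m (bi m χ δ) := (hCB δ hδ hδ2).1.toTg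
  have hC1 := (hKCD m N χ hm1 hS.two_le hχ y a δ x0 hy ha hδ hδ2 hx0).1
  have hsf : SFinite (hm m) := by unfold hm; infer_instance
  have hfinD : IsFiniteMeasure ((hm m).restrict D) :=
    Pool.Agent.H27.L1.H90.GA.fin_D hVLM hm1 hD
  let _ms : MeasurableSpace (VN m N) := ⊤
  have _hs : MeasurableSingletonClass (VN m N) := ⟨fun _ => trivial⟩
  have hfinB : IsFiniteMeasure ((volume : Measure (V m)).restrict B) :=
    ⟨by rw [Measure.restrict_apply_univ]; exact hBfin.lt_top⟩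
  have hDY : DY D Y ⊆ D := fun z hz => hz.1
  have hDYm : MeasurableSet (DY D Y) := hDYM m D hD Y
  -- bounds
  choose Af hAf using fun i => (hF i).1.toHecA.bdd
  choose Mf hMf0 hMf using fun i => rr_bd hMSR hHAR hm1 hk (A := max (Af i) 0)
    (le_max_right _ _) (F := F i) (fun g x hg => (hAf i g x hg).trans (le_max_left _ _))
  obtain ⟨MM, hMMd⟩ : ∃ MM : ℝ, MM = ∑ i, (max (Af i) 0 + Mf i) := ⟨_, rfl⟩
  have hMi : ∀ i, max (Af i) 0 + Mf i ≤ MM := by
    intro i
    rw [hMMd]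
    exact Finset.single_le_sum (f := fun i => max (Af i) 0 + Mf i)
      (fun j _ => add_nonneg (le_max_right _ _) (hMf0 j)) (Finset.mem_univ i)
  have hfM : ∀ i p, ‖fB B D (F i) p‖ ≤ MM := by
    intro i p
    have h0 : 0 ≤ MM := (add_nonneg (le_max_right (Af i) 0) (hMf0 i)).trans (hMi i)
    unfold fB
    split_ifs with h
    · refine (hAf i _ _ (det_mul_ne (hDdet _ h.2) (hBdet _ h.1))).trans ?_
      have h1 := le_max_left (Af i) 0
      have h2 := hMf0 i
      have h3 := hMi i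
      linarith
    · rw [norm_zero]
      exact h0
  have hgM : ∀ i p, ‖gB B D (bi m χ δ) (F i) p‖ ≤ MM := by
    intro i p
    have h0 : 0 ≤ MM := (add_nonneg (le_max_right (Af i) 0) (hMf0 i)).trans (hMi i)
    unfold gB
    split_ifs with h
    · refine (hMf i _ _ (hBdet _ h.1) (hDdet _ h.2) _).trans ?_
      have h1 := le_max_right (Af i) 0
      have h3 := hMi i
      linarith
    · rw [norm_zero]
      exact h0
  have hfm : ∀ i, Measurable (fB B D (F i)) := fun i =>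
    fB_meas hMSR hBm hDm hBdet hDdet (hF i).1.cont
  have hgm : ∀ i, Measurable (gB B D (bi m χ δ) (F i)) := fun i =>
    gB_meas hMSR hm1 hk hBm hDm hBdet hDdet (hF i).1.cont
  obtain ⟨μ, hμ⟩ : ∃ μ : Measure (V m × VN m N), μ = ((hm m).restrict D).prod
      (Measure.count : Measure (VN m N)) := ⟨_, rfl⟩
  have hfinμ : IsFiniteMeasure μ := by rw [hμ]; infer_instance
  obtain ⟨ρ, hρ⟩ : ∃ ρ : Measure (V m), ρ = (volume : Measure (V m)).restrict B := ⟨_, rfl⟩
  have hfinρ : IsFiniteMeasure ρ := by rw [hρ]; exact hfinB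
  -- scalar products
  have ipf : ∀ i j : ι, ∀ z ∈ B, ∀ z' ∈ B, ∫ x, fB B D (F i) (z, x) *
      (starRingEnd ℂ) (fB B D (F j) (z', x)) ∂μ =
      Pool.Agent.H27.L1.H68.GHK.ip D (rt (mt z) (F i)) (rt (mt z') (F j)) := by
    intro i j z hz z' hz'
    rw [hμ]
    refine (ip_prod (G := fun p => fB B D (F i) (z, p)) (H := fun p => fB B D (F j) (z', p))
      ((hfm i).comp measurable_prodMk_left) ((hfm j).comp measurable_prodMk_left)
      (fun p => hfM i (z, p)) (fun p => hfM j (z', p))).trans ?_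
    unfold Pool.Agent.H27.L1.H68.GHK.ip
    refine Finset.sum_congr rfl fun x _ => setIntegral_congr_fun hDm fun v hv => ?_
    unfold fB
    simp only
    rw [if_pos ⟨hz, hv⟩, if_pos ⟨hz', hv⟩]
    rfl
  have ipg : ∀ i j : ι, ∀ z ∈ B, ∀ z' ∈ B, ∫ x, gB B D (bi m χ δ) (F i) (z, x) *
      (starRingEnd ℂ) (gB B D (bi m χ δ) (F j) (z', x)) ∂μ =
      Pool.Agent.H27.L1.H68.GHK.ip D (Rr (bi m χ δ) 1 (rt (mt z) (F i)))
        (Rr (bi m χ δ) 1 (rt (mt z') (F j))) := by
    intro i j z hz z' hz'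
    rw [hμ]
    refine (ip_prod (G := fun p => gB B D (bi m χ δ) (F i) (z, p))
      (H := fun p => gB B D (bi m χ δ) (F j) (z', p))
      ((hgm i).comp measurable_prodMk_left) ((hgm j).comp measurable_prodMk_left)
      (fun p => hgM i (z, p)) (fun p => hgM j (z', p))).trans ?_
    unfold Pool.Agent.H27.L1.H68.GHK.ip
    refine Finset.sum_congr rfl fun x _ => setIntegral_congr_fun hDm fun v hv => ?_
    unfold gB
    simp only
    rw [if_pos ⟨hz, hv⟩, if_pos ⟨hz', hv⟩]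
  have fB0 : ∀ i : ι, ∀ z, z ∉ B → ∀ x, fB B D (F i) (z, x) = 0 := by
    intro i z hz x
    unfold fB
    exact if_neg fun h => hz h.1
  have gB0 : ∀ i : ι, ∀ z, z ∉ B → ∀ x, gB B D (bi m χ δ) (F i) (z, x) = 0 := by
    intro i z hz x
    unfold gB
    exact if_neg fun h => hz h.1
  -- the kernel
  obtain ⟨K, hK⟩ : ∃ K : (V m × VN m N) × (V m × VN m N) → ℂ, K = fun p =>
      Kc (bi m χ δ) a δ x0 (mt p.1.1) p.1.2 (mt p.2.1) p.2.2 := ⟨_, rfl⟩
  have hKm : Measurable K := by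
    have h1 : Measurable fun q : (V m × V m) × (VN m N × VN m N) =>
        Kc (bi m χ δ) a δ x0 (mt q.1.1) q.2.1 (mt q.1.2) q.2.2 :=
      measurable_from_prod_countable_left fun w => (hKMD m N δ y w.1 w.2 hm1).2 _ hk a x0
    have h2 : Measurable fun p : (V m × VN m N) × (V m × VN m N) =>
        (((p.1.1, p.2.1), (p.1.2, p.2.2)) : (V m × V m) × (VN m N × VN m N)) := by fun_prop
    rw [hK]
    exact h1.comp h2
  obtain ⟨E, hE⟩ : ∃ E : ENNReal, E = ∫⁻ g in DY D Y, Ed N D δ y x0 (mt g) ∂(hm m) := ⟨_, rfl⟩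
  have hint : ∀ yy : V m × VN m N, ∫⁻ x, ENNReal.ofReal (‖K (yy, x)‖ ^ 2) ∂μ =
      ∫⁻ h in D, ∑ w, ENNReal.ofReal (‖Kc (bi m χ δ) a δ x0 (mt yy.1) yy.2 (mt h) w‖ ^ 2)
        ∂(hm m) := by
    intro yy
    rw [hμ]
    refine (Pool.Agent.H27.L1.H55.GHY.hsd_lint _ (fun p => ENNReal.ofReal (‖K (yy, p)‖ ^ 2))
      (((hKm.comp measurable_prodMk_left).norm.pow_const 2).ennreal_ofReal)).trans ?_
    rw [hK]
  have hKE : ∫⁻ yy in (DY D Y) ×ˢ (Set.univ : Set (VN m N)),
      ∫⁻ x, ENNReal.ofReal (‖K (yy, x)‖ ^ 2) ∂μ ∂μ ≤ E := by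
    have h1 : μ.restrict ((DY D Y) ×ˢ (Set.univ : Set (VN m N))) =
        ((hm m).restrict (DY D Y)).prod (Measure.count : Measure (VN m N)) := by
      rw [hμ, ← Measure.prod_restrict, Measure.restrict_univ,
        Measure.restrict_restrict_of_subset hDY]
    rw [h1]
    have h2 : Measurable fun yy : V m × VN m N => ∫⁻ x, ENNReal.ofReal (‖K (yy, x)‖ ^ 2) ∂μ :=
      Measurable.lintegral_prod_right'
        (f := fun p : (V m × VN m N) × (V m × VN m N) => ENNReal.ofReal (‖K p‖ ^ 2))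
        ((hKm.norm.pow_const 2).ennreal_ofReal)
    refine (le_of_eq (Pool.Agent.H27.L1.H55.GHY.hsd_lint _ _ h2)).trans ?_
    rw [hE]
    refine lintegral_mono fun g => ?_
    unfold Ed
    refine Finset.sum_le_sum fun x _ => ?_
    rw [hint]
    refine lintegral_mono fun h => Finset.sum_le_sum fun w _ => ?_
    rw [ENNReal.ofReal_pow (norm_nonneg _)]
    exact pow_le_pow_left' (hC1 _ _ _ _) 2
  -- the operator
  have hop : ∀ (i : ι) (z : V m), ∀ yy ∈ (DY D Y) ×ˢ (Set.univ : Set (VN m N)),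
      ∫⁻ x, ENNReal.ofReal (‖K (yy, x)‖ ^ 2) ∂μ < ⊤ →
      ∫ x, K (yy, x) * fB B D (F i) (z, x) ∂μ =
        Bs m (lam i) a y δ x0 * gB B D (bi m χ δ) (F i) (z, yy) := by
    intro i z yy hyy hfin
    by_cases hz : z ∈ B
    swap
    · rw [gB0 i z hz, mul_zero]
      refine (integral_congr_ae (Eventually.of_forall fun x => ?_)).trans (integral_zero _ _)
      rw [fB0 i z hz, mul_zero]
    have hyD : yy.1 ∈ D := hDY hyy.1
    have hKi : MemLp (fun x => K (yy, x)) 2 μ := by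
      have h1 : Measurable fun x => K (yy, x) := hKm.comp measurable_prodMk_left
      rw [memLp_two_iff_integrable_sq_norm h1.aestronglyMeasurable]
      refine ⟨(h1.norm.pow_const 2).aestronglyMeasurable, ?_⟩
      refine lt_of_le_of_lt ?_ hfin
      refine lintegral_mono fun z => ?_
      rw [← ofReal_norm, Real.norm_of_nonneg (by positivity)]
    have hfi : Measurable fun x => fB B D (F i) (z, x) := (hfm i).comp measurable_prodMk_left
    have hI : Integrable (fun x => K (yy, x) * fB B D (F i) (z, x)) μ :=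
      (hKi.integrable (by norm_num)).mul_bdd (c := MM) hfi.aestronglyMeasurable
        (Eventually.of_forall fun x => hfM i (z, x))
    rw [hμ] at hI ⊢
    rw [integral_prod _ hI]
    have hzs := hTR N T D hS (F i) (lam i) (P i) (hF i).1 (hOr.one i) (hF i).2.1 (hF i).2.2
      (mt z) (hBs z hz)
    have e1 := hOCD m N T D hS (rt (mt z) (F i)) (lam i) hzs.1.toHecA χ hχ y a δ x0 hy ha hδ hδ2
      hx0 (mt yy.1) yy.2 (hDdet _ hyD)
    have e2 : gB B D (bi m χ δ) (F i) (z, yy) =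
        Rr (bi m χ δ) 1 (rt (mt z) (F i)) (mt yy.1) yy.2 := by
      unfold gB
      exact if_pos ⟨hz, hyD⟩
    rw [e2, ← e1]
    refine setIntegral_congr_fun hDm fun v hv => ?_
    show ∫ w, K (yy, (v, w)) * fB B D (F i) (z, (v, w)) ∂(Measure.count : Measure (VN m N)) = _
    rw [integral_count]
    refine Finset.sum_congr rfl fun w _ => ?_
    have e3 : fB B D (F i) (z, (v, w)) = rt (mt z) (F i) (mt v) w := by
      unfold fB
      exact if_pos ⟨hz, hv⟩
    rw [e3, hK]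
  have horth : ∀ i j : ι, i ≠ j → ∀ z z', ∫ x, fB B D (F i) (z, x) *
      (starRingEnd ℂ) (fB B D (F j) (z', x)) ∂μ = 0 := by
    intro i j hij z z'
    by_cases hz : z ∈ B
    swap
    · refine (integral_congr_ae (Eventually.of_forall fun x => ?_)).trans (integral_zero _ _)
      rw [fB0 i z hz, zero_mul]
    by_cases hz' : z' ∈ B
    swap
    · refine (integral_congr_ae (Eventually.of_forall fun x => ?_)).trans (integral_zero _ _)
      rw [fB0 j z' hz', map_zero, mul_zero]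
    rw [ipf i j z hz z' hz']
    have hd := hBdet z hz
    have hd' := hBdet z' hz'
    have h1 : ((mt z')⁻¹ * mt z).det ≠ 0 := det_mul_ne (Pool.Agent.H27.L1.H91.GA.inv_det hd') hd
    have hHi := (hF i).1.toHecA
    have hHj := (hF j).1.toHecA
    have h2 := (hIPT m N T D hS (rt ((mt z')⁻¹ * mt z) (F i)) (F j) (lam i) (lam j)
      ((hIPT m N T D hS (F i) (F i) (lam i) (lam i) hHi hHi).1 _ h1).1 hHj).1 (mt z') hd'
    have h3 : rt (mt z') (rt ((mt z')⁻¹ * mt z) (F i)) = rt (mt z) (F i) := by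
      funext g x
      unfold rt
      rw [Matrix.mul_assoc, Matrix.mul_nonsing_inv_cancel_left _ _ (isUnit_iff_ne_zero.2 hd')]
    have h4 := h2.2.2
    rw [h3] at h4
    rw [h4]
    exact hOr.orth i j hij _ h1
  have hone : ∀ _i : ι, δ ≤ cQ := by
    intro i
    have h1 := hδc i
    have h2 := (hF i).2.2
    have h3 : δ ≤ δ * (1 + P i) := le_mul_of_one_le_right hδ.le (by linarith)
    exact h3.trans (h1.trans (min_le_left _ _))
  have hq : ∀ i : ι, ‖∫ z, ∫ z', (∫ x, fB B D (F i) (z, x) *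
      (starRingEnd ℂ) (fB B D (F i) (z', x)) ∂μ) * (starRingEnd ℂ)
      (∫ yy, gB B D (bi m χ δ) (F i) (z, yy) *
        (starRingEnd ℂ) (gB B D (bi m χ δ) (F i) (z', yy)) ∂μ) ∂ρ ∂ρ‖ ≤
      CQ * tb m χ δ ^ 2 * Hn r D (F i) := by
    intro i
    refine le_trans (le_of_eq (congrArg norm ?_)) (hQB N T D hS (F i) (lam i) (hF i).1.toHecA
      (hOr.one i) r0 δ hr0 hr0Q hδ (hone i))
    rw [hρ, hBd]
    rw [hBd] at ipf ipg hBm
    refine setIntegral_congr_fun hBm fun z hz => ?_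
    refine setIntegral_congr_fun hBm fun z' hz' => ?_
    rw [ipf i i z hz z' hz', ipg i i z hz z' hz']
  have hA : ∀ i : ι, cM * tb m χ δ ^ 2 * vol ≤
      ∫ z, ∫ yy in (DY D Y) ×ˢ (Set.univ : Set (VN m N)),
        ‖gB B D (bi m χ δ) (F i) (z, yy)‖ ^ 2 ∂μ ∂ρ := by
    intro i
    have hgi : Measurable fun p : V m × (V m × VN m N) => ‖gB B D (bi m χ δ) (F i) p‖ ^ 2 :=
      (hgm i).norm.pow_const 2
    have hpt : ∀ z ∈ B, cM * tb m χ δ ^ 2 ≤
        ∫ yy in (DY D Y) ×ˢ (Set.univ : Set (VN m N)),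
          ‖gB B D (bi m χ δ) (F i) (z, yy)‖ ^ 2 ∂μ := by
      intro z hz
      have hzs := hTR N T D hS (F i) (lam i) (P i) (hF i).1 (hOr.one i) (hF i).2.1 (hF i).2.2
        (mt z) (hBs z hz)
      have hP0 : 0 ≤ CT * (1 + P i) := by
        have := (hF i).2.2
        positivity
      have hδz : δ * (1 + CT * (1 + P i)) ≤ cM := by
        have h1 := (hδc i).trans (min_le_right _ _)
        rw [le_div_iff₀ (by linarith)] at h1
        have h2 := (hF i).2.2
        have h3 : δ * (1 + CT * (1 + P i)) ≤ δ * (1 + P i) * (1 + CT) := by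
          have h4 : 1 + CT * (1 + P i) ≤ (1 + P i) * (1 + CT) := by nlinarith
          calc δ * (1 + CT * (1 + P i)) ≤ δ * ((1 + P i) * (1 + CT)) :=
                mul_le_mul_of_nonneg_left h4 hδ.le
            _ = _ := by ring
        exact h3.trans h1
      have h1 := hMS N T D hS (rt (mt z) (F i)) (lam i) hzs.1 hzs.2.1 (CT * (1 + P i)) δ
        hzs.2.2 hP0 hδ hδ2 hδz Y hYM
      have h2 : Measurable fun yy : V m × VN m N => ‖gB B D (bi m χ δ) (F i) (z, yy)‖ ^ 2 :=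
        hgi.comp measurable_prodMk_left
      have h3 : Integrable (fun yy : V m × VN m N => ‖gB B D (bi m χ δ) (F i) (z, yy)‖ ^ 2)
          (μ.restrict ((DY D Y) ×ˢ (Set.univ : Set (VN m N)))) := by
        refine Integrable.of_bound h2.aestronglyMeasurable (MM ^ 2)
          (Eventually.of_forall fun yy => ?_)
        rw [Real.norm_of_nonneg (by positivity)]
        exact pow_le_pow_left₀ (norm_nonneg _) (hgM i (z, yy)) 2
      have h4 : ENNReal.ofReal (∫ yy in (DY D Y) ×ˢ (Set.univ : Set (VN m N)),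
          ‖gB B D (bi m χ δ) (F i) (z, yy)‖ ^ 2 ∂μ) =
          ∑ x, ∫⁻ v in DY D Y, ENNReal.ofReal
            (‖Rr (bi m χ δ) 1 (rt (mt z) (F i)) (mt v) x‖ ^ 2) ∂(hm m) := by
        rw [ofReal_integral_eq_lintegral_ofReal h3 (Eventually.of_forall fun _ => by positivity)]
        have h5 : μ.restrict ((DY D Y) ×ˢ (Set.univ : Set (VN m N))) =
            ((hm m).restrict (DY D Y)).prod (Measure.count : Measure (VN m N)) := by
          rw [hμ, ← Measure.prod_restrict, Measure.restrict_univ,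
            Measure.restrict_restrict_of_subset hDY]
        rw [h5]
        refine (Pool.Agent.H27.L1.H55.GHY.hsd_lint _ (fun yy => ENNReal.ofReal
          (‖gB B D (bi m χ δ) (F i) (z, yy)‖ ^ 2)) h2.ennreal_ofReal).trans ?_
        have h9 : ∀ x : VN m N, Measurable fun v : V m =>
            ENNReal.ofReal (‖gB B D (bi m χ δ) (F i) (z, (v, x))‖ ^ 2) := fun x =>
          h2.ennreal_ofReal.comp measurable_prodMk_right
        rw [lintegral_finsetSum _ fun x _ => h9 x]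
        refine Finset.sum_congr rfl fun x _ => setLIntegral_congr_fun hDYm fun v hv => ?_
        have e1 : gB B D (bi m χ δ) (F i) (z, (v, x)) =
            Rr (bi m χ δ) 1 (rt (mt z) (F i)) (mt v) x := by
          unfold gB
          exact if_pos ⟨hz, hDY hv⟩
        rw [e1]
      rw [← h4] at h1
      exact (ENNReal.ofReal_le_ofReal_iff (integral_nonneg fun _ => by positivity)).1 h1
    have h6 : Measurable fun z : V m => ∫ yy in (DY D Y) ×ˢ (Set.univ : Set (VN m N)),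
        ‖gB B D (bi m χ δ) (F i) (z, yy)‖ ^ 2 ∂μ :=
      (hgi.stronglyMeasurable.integral_prod_right
        (ν := μ.restrict ((DY D Y) ×ˢ (Set.univ : Set (VN m N))))).measurable
    have h7 : Integrable (fun z : V m => ∫ yy in (DY D Y) ×ˢ (Set.univ : Set (VN m N)),
        ‖gB B D (bi m χ δ) (F i) (z, yy)‖ ^ 2 ∂μ) ρ := by
      refine Integrable.of_bound h6.aestronglyMeasurable
        (MM ^ 2 * (μ.restrict ((DY D Y) ×ˢ (Set.univ : Set (VN m N))) Set.univ).toReal)
        (Eventually.of_forall fun z => ?_)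
      refine norm_integral_le_of_norm_le_const (Eventually.of_forall fun yy => ?_)
      rw [Real.norm_of_nonneg (by positivity)]
      exact pow_le_pow_left₀ (norm_nonneg _) (hgM i (z, yy)) 2
    have h8 : cM * tb m χ δ ^ 2 * vol = ∫ _z : V m in B, cM * tb m χ δ ^ 2 := by
      rw [setIntegral_const, hvol, smul_eq_mul, mul_comm]
      rfl
    rw [h8, hρ]
    rw [hρ] at h7
    refine setIntegral_mono_on (integrableOn_const hBfin) h7 hBm fun z hz => hpt z hz
  -- the subfamily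
  have hmain := lsk_abs2 (μ := μ) (ν := μ) (ρ := ρ) (ι := {i : ι // 0 < Hn r D (F i)})
    (S := (DY D Y) ×ˢ (Set.univ : Set (VN m N))) (hDYm.prod MeasurableSet.univ) hKm hKE
    (f := fun i => fB B D (F i.1)) (g := fun i => gB B D (bi m χ δ) (F i.1))
    (fun i => hfm i.1) (fun i => hgm i.1) (M := MM) (fun i => hfM i.1) (fun i => hgM i.1)
    (b := fun i => Bs m (lam i.1) a y δ x0) (fun i => hop i.1)
    (fun i j hij => horth i.1 j.1 fun h => hij (Subtype.ext h))
    (q := fun i => CQ * tb m χ δ ^ 2 * Hn r D (F i.1))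
    (fun i => mul_pos (by positivity) i.2) (fun i => hq i.1)
    (A := fun _ => cM * tb m χ δ ^ 2 * vol) (fun _ => by positivity) (fun i => hA i.1)
  -- conclusion
  have e1 : ∑ i, ENNReal.ofReal (‖Bs m (lam i) a y δ x0‖ ^ 2 * (Hn r D (F i))⁻¹) =
      ∑ i : {i : ι // 0 < Hn r D (F i)},
        ENNReal.ofReal (‖Bs m (lam i.1) a y δ x0‖ ^ 2 * (Hn r D (F i.1))⁻¹) := by
    rw [← Finset.sum_filter_add_sum_filter_not Finset.univ (fun i => 0 < Hn r D (F i))]
    have h1 : ∑ i ∈ Finset.univ.filter (fun i => ¬ 0 < Hn r D (F i)),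
        ENNReal.ofReal (‖Bs m (lam i) a y δ x0‖ ^ 2 * (Hn r D (F i))⁻¹) = 0 := by
      refine Finset.sum_eq_zero fun i hi => ?_
      have h2 : Hn r D (F i) = 0 :=
        le_antisymm (not_lt.1 (Finset.mem_filter.1 hi).2) (hn_nn r D (F i))
      rw [h2, inv_zero, mul_zero, ENNReal.ofReal_zero]
    rw [h1, add_zero]
    exact Finset.sum_subtype _ (fun i => by simp)
      (fun i => ENNReal.ofReal (‖Bs m (lam i) a y δ x0‖ ^ 2 * (Hn r D (F i))⁻¹))
  have e2 : ENNReal.ofReal (tb m χ δ ^ 2) * ∑ i : {i : ι // 0 < Hn r D (F i)},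
      ENNReal.ofReal (‖Bs m (lam i.1) a y δ x0‖ ^ 2 * (Hn r D (F i.1))⁻¹) =
      ENNReal.ofReal (CQ / (cM ^ 2 * vol ^ 2)) * ∑ i : {i : ι // 0 < Hn r D (F i)},
        ENNReal.ofReal (‖Bs m (lam i.1) a y δ x0‖ ^ 2 * (cM * tb m χ δ ^ 2 * vol) ^ 2 /
          (CQ * tb m χ δ ^ 2 * Hn r D (F i.1))) := by
    rw [Finset.mul_sum, Finset.mul_sum]
    refine Finset.sum_congr rfl fun i _ => ?_
    have hi := i.2
    rw [← ENNReal.ofReal_mul (by positivity), ← ENNReal.ofReal_mul (by positivity)]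
    congr 1
    have h1 := hi.ne'
    have h2 := hvol0.ne'
    have h3 := htb0.ne'
    have h4 := hcM.ne'
    have h5 := hCQ.ne'
    field_simp
  rw [e1, e2, ← hE]
  refine mul_le_mul' (ENNReal.ofReal_le_ofReal ?_) hmain
  exact le_max_right _ _

end Pool.Agent.H27.L1.H23.GHK
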