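import Pool.Agent.H27.L1.H23.GHK.TRF
import Pool.Agent.H27.L1.H68.GHK.Targets

/-!
Row TRF of the board ghk (MP_52e316_nt): small translates of a cusp form.
-/

namespace Pool.Agent.H27.L1.H23.GHK

open MeasureTheory Pool.Agent.H27.L1.H34.GM Pool.Agent.H27.L1.H34.GZ Pool.Agent.H27.L1.H34.GU Pool.Agent.H27.L1.H34.GA

theorem pf_TRF (hVL : T_VLM) (hRTI : T_RTI) (hALU : T_ALU) : Pool.Agent.H27.L1.H68.GHK.T_TRF := by
  intro m hm1
  have hm1' : (1 : ℝ) ≤ m := by exact_mod_cast hm1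
  have h3 : (1 : ℝ) ≤ (m : ℝ) ^ 3 := one_le_pow₀ hm1'
  refine ⟨16 * m ^ 3, by linarith, ?_⟩
  intro N _ T D hS F lam P hF hn hL hP u hu
  have hs := Pool.Agent.H27.L1.H90.GA.sz_nn (u - 1)
  have h4 : 4 * m * sz (u - 1) ≤ 1 := by
    have h5 : 0 ≤ (m : ℝ) * sz (u - 1) := by positivity
    nlinarith
  have hud : u.det ≠ 0 :=
    (Pool.Agent.H27.L1.H90.GA.inv_near hm1 (le_refl (sz (u - 1))) (by linarith)).1
  refine ⟨trf_cus hF hud, ?_, trf_lip hVL hRTI hALU hS hF.toHecA hn hP hL h4⟩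
  exact (trf_nU hVL hRTI hALU hS hF.toHecA hud).trans hn

end Pool.Agent.H27.L1.H23.GHK
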