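import Pool.Agent.H27.L1.H62.GHY.SPLD
import Pool.Agent.H27.L1.H83.GA.CFB

/-!
Board ghk (MP_52e316_nt): the right translates of a form, their norms, scalar products and Lipschitz
constants.
-/

namespace Pool.Agent.H27.L1.H23.GHK

open MeasureTheory Filter Pool.Agent.H27.L1.H34.GM Pool.Agent.H27.L1.H34.GZ Pool.Agent.H27.L1.H34.GU Pool.Agent.H27.L1.H34.GA
open Pool.Agent.H27.L1.H90.GA (sz_nn le_sz sz_le sz_mul inv_near det_inv_ne meas_F meas_F1 fin_D int_sq
  det_ne_D)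

/-- the right translate -/
def tF {m N : ℕ} (z : Mat m) (F : Mat m → VN m N → ℂ) : Mat m → VN m N → ℂ :=
  fun g x => F (g * z) x

/-- the scalar product over the domain -/
noncomputable def ip {m N : ℕ} [NeZero N] (D : Set (V m)) (F G : Mat m → VN m N → ℂ) : ℂ :=
  ∑ x : VN m N, ∫ z in D, F (mt z) x * (starRingEnd ℂ) (G (mt z) x) ∂(hm m)

/-- bounded continuous invariant functions -/
structure Ivf {m N : ℕ} [NeZero N] (F : Mat m → VN m N → ℂ) : Prop where
  cont : ∀ x, ContinuousOn (fun g => F g x) {g | g.det ≠ 0}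
  auto : ∀ γ : ZM m, IsUnit γ → ∀ g x, g.det ≠ 0 → F (cR γ * g) (ac N γ x) = F g x
  scal : ∀ r : ℝ, 0 < r → ∀ g x, g.det ≠ 0 → F (r • g) x = F g x
  bdd : ∃ B : ℝ, ∀ g x, g.det ≠ 0 → ‖F g x‖ ≤ B

section basic

variable {m N : ℕ} [NeZero N] {T : ℕ → Finset (ZM m)} {D : Set (V m)}
  {F G : Mat m → VN m N → ℂ} {lam : ℕ → ℂ}

theorem ivf_of (hF : HecA m N T F lam) : Ivf F := ⟨hF.cont, hF.auto, hF.scal, hF.bdd⟩

theorem ivf_lin (hF : Ivf F) (hG : Ivf G) (c : ℂ) : Ivf (fun g x => F g x + c * G g x) where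
  cont x := (hF.cont x).add (continuousOn_const.mul (hG.cont x))
  auto γ hγ g x hg := by
    rw [hF.auto γ hγ g x hg, hG.auto γ hγ g x hg]
  scal r hr g x hg := by
    rw [hF.scal r hr g x hg, hG.scal r hr g x hg]
  bdd := by
    obtain ⟨A, hA⟩ := hF.bdd
    obtain ⟨B, hB⟩ := hG.bdd
    refine ⟨A + ‖c‖ * B, fun g x hg => (norm_add_le _ _).trans ?_⟩
    rw [norm_mul]
    exact add_le_add (hA g x hg) (mul_le_mul_of_nonneg_left (hB g x hg) (norm_nonneg _))

theorem det_mul_ne {g z : Mat m} (hg : g.det ≠ 0) (hz : z.det ≠ 0) : (g * z).det ≠ 0 := by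
  rw [Matrix.det_mul]
  exact mul_ne_zero hg hz

omit [NeZero N] in
theorem cont_tr {z : Mat m} (hz : z.det ≠ 0) {x : VN m N}
    (hF : ContinuousOn (fun g => F g x) {g | g.det ≠ 0}) :
    ContinuousOn (fun g => F (g * z) x) {g | g.det ≠ 0} := by
  refine ContinuousOn.comp (g := fun g : Mat m => F g x) (t := {g | g.det ≠ 0}) hF ?_ ?_
  · exact (continuous_id.matrix_mul continuous_const).continuousOn
  · intro g hg
    exact det_mul_ne hg hz

theorem ivf_tr (hF : Ivf F) {z : Mat m} (hz : z.det ≠ 0) : Ivf (tF z F) where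
  cont x := cont_tr hz (hF.cont x)
  auto γ hγ g x hg := by
    unfold tF
    rw [Matrix.mul_assoc]
    exact hF.auto γ hγ _ x (det_mul_ne hg hz)
  scal r hr g x hg := by
    unfold tF
    rw [Matrix.smul_mul]
    exact hF.scal r hr _ x (det_mul_ne hg hz)
  bdd := by
    obtain ⟨A, hA⟩ := hF.bdd
    exact ⟨A, fun g x hg => hA _ x (det_mul_ne hg hz)⟩

/-- translates of eigenfunctions -/
theorem trf_hec (hF : HecA m N T F lam) {z : Mat m} (hz : z.det ≠ 0) :
    HecA m N T (tF z F) lam where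
  cont := (ivf_tr (ivf_of hF) hz).cont
  supp g x hx := hF.supp _ x hx
  auto := (ivf_tr (ivf_of hF) hz).auto
  scal := (ivf_tr (ivf_of hF) hz).scal
  hecke n hn g x hg := by
    unfold tF
    rw [← hF.hecke n hn _ x (det_mul_ne hg hz)]
    exact Finset.sum_congr rfl fun α _ => by rw [Matrix.mul_assoc]
  bdd := (ivf_tr (ivf_of hF) hz).bdd

/-- translates of forms -/
theorem trf_cus (hF : CusB m N T F lam) {z : Mat m} (hz : z.det ≠ 0) :
    CusB m N T (tF z F) lam where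
  toHecA := trf_hec hF.toHecA hz
  prim v hv g hg := hF.prim v hv _ (det_mul_ne hg hz)
  cusp k hk hkm g x hg := by
    unfold tF
    rw [← hF.cusp k hk hkm (g * z) x (det_mul_ne hg hz)]
    exact integral_congr_ae (Eventually.of_forall fun u => by
      show F ((1 + (N : ℝ) • nk k u) * g * z) x = F ((1 + (N : ℝ) • nk k u) * (g * z)) x
      rw [Matrix.mul_assoc])

/-- differences of eigenfunctions with the same eigenvalues -/
theorem hec_sub (hF : HecA m N T F lam) (hG : HecA m N T G lam) :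
    HecA m N T (fun g x => F g x - G g x) lam where
  cont x := (hF.cont x).sub (hG.cont x)
  supp g x hx := by
    rw [hF.supp g x hx, hG.supp g x hx, sub_zero]
  auto γ hγ g x hg := by
    rw [hF.auto γ hγ g x hg, hG.auto γ hγ g x hg]
  scal r hr g x hg := by
    rw [hF.scal r hr g x hg, hG.scal r hr g x hg]
  hecke n hn g x hg := by
    rw [Finset.sum_sub_distrib, hF.hecke n hn g x hg, hG.hecke n hn g x hg]
    ring
  bdd := by
    obtain ⟨A, hA⟩ := hF.bdd
    obtain ⟨B, hB⟩ := hG.bdd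
    exact ⟨A + B, fun g x hg => (norm_sub_le _ _).trans (add_le_add (hA g x hg) (hB g x hg))⟩

theorem intv_w (hVL : T_VLM) (hS : SysZ m N T D) (hF : Ivf F) {w : Mat m} (hw : w.det ≠ 0)
    (x : VN m N) :
    Integrable (fun z => ‖F ((mt z : Mat m) * w) x‖ ^ 2) ((hm m).restrict D) := by
  have hfin := fin_D hVL hS.one_le hS.dom
  obtain ⟨B, hB⟩ := hF.bdd
  exact int_sq hS.dom (meas_F hS.one_le hS.dom (hF.cont x) hw) (A := B) fun z hz => hB _ x
    (det_mul_ne (det_ne_D hS.one_le hS.dom hz) hw)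

theorem intv_o (hVL : T_VLM) (hS : SysZ m N T D) (hF : Ivf F) (x : VN m N) :
    Integrable (fun z => ‖F (mt z) x‖ ^ 2) ((hm m).restrict D) := by
  have h := intv_w hVL hS hF (w := 1) (by simp) x
  simpa only [mul_one] using h

/-- right translations preserve the norm -/
theorem nrm_lin (hRTI : T_RTI) (hALU : T_ALU) (hS : SysZ m N T D) (hF : Ivf F)
    {w : Mat m} (hw : w.det ≠ 0) :
    ∫⁻ z in D, ENNReal.ofReal (∑ x : VN m N, ‖F ((mt z : Mat m) * w) x‖ ^ 2) ∂(hm m) =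
      ∫⁻ z in D, ENNReal.ofReal (∑ x : VN m N, ‖F (mt z) x‖ ^ 2) ∂(hm m) := by
  have hm1 := hS.one_le
  have hN2 := hS.two_le
  have hD := hS.dom
  have hdet : ∀ z ∈ D, (mt z).det ≠ 0 := fun z hz => det_ne_D hm1 hD hz
  have hopenV : IsOpen {w : V m | (mt w).det ≠ 0} :=
    isOpen_ne_fun (Pool.Agent.H27.L1.H69.GA.cfa_det m) continuous_const
  obtain ⟨S, hSd⟩ : ∃ S : V m → ℝ, S =
      Set.piecewise {z : V m | (mt z).det ≠ 0} (fun z => ∑ x : VN m N, ‖F (mt z) x‖ ^ 2)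
        (fun _ => (0 : ℝ)) := ⟨_, rfl⟩
  have hS1 : ∀ z, (mt z).det ≠ 0 → S z = ∑ x : VN m N, ‖F (mt z) x‖ ^ 2 := by
    intro z hz
    rw [hSd]
    exact Set.piecewise_eq_of_mem _ _ _ hz
  have hSm : Measurable S := by
    rw [hSd]
    refine ContinuousOn.measurable_piecewise ?_ continuousOn_const hopenV.measurableSet
    refine continuousOn_finsetSum _ fun x _ => ?_
    exact ((hF.cont x).comp (Pool.Agent.H27.L1.H69.GA.cfa_mt m).continuousOn (fun z hz => hz)).norm.pow 2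
  have hbij := hALU m N hm1 hN2
  have hrti := hRTI m hm1 D hD (fun z => ENNReal.ofReal (S z)) hSm.ennreal_ofReal ?_ ?_
    w hw
  rotate_left
  · intro γ hγ z hz
    have hγ1 : (cR γ).det ≠ 0 := by
      have h1 : (cR γ).det = ((γ.det : ℤ) : ℝ) := ((Int.castRingHom ℝ).map_det γ).symm
      rw [h1]
      have h2 := (Matrix.isUnit_iff_isUnit_det γ).1 hγ
      exact_mod_cast h2.ne_zero
    have h2 : (mt (fun i j => (cR γ * mt z) i j : V m)).det ≠ 0 := by
      show (cR γ * mt z).det ≠ 0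
      rw [Matrix.det_mul]
      exact mul_ne_zero hγ1 hz
    show ENNReal.ofReal (S _) = ENNReal.ofReal (S z)
    rw [hS1 _ h2, hS1 _ hz]
    congr 1
    have h3 := hbij.2.2.2.2.2 γ hγ
    have h4 : (∑ x : VN m N, ‖F (cR γ * Pool.Agent.H27.L1.H34.GM.mt z) (ac N γ x)‖ ^ 2) =
        ∑ x : VN m N, ‖F (cR γ * Pool.Agent.H27.L1.H34.GM.mt z) x‖ ^ 2 :=
      h3.sum_comp (fun x => ‖F (cR γ * Pool.Agent.H27.L1.H34.GM.mt z) x‖ ^ 2)
    show (∑ x : VN m N, ‖F (cR γ * Pool.Agent.H27.L1.H34.GM.mt z) x‖ ^ 2) = _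
    rw [← h4]
    refine Finset.sum_congr rfl fun x _ => ?_
    rw [hF.auto γ hγ (mt z) x hz]
  · intro c hc z hz
    have h2 : (mt (c • z)).det ≠ 0 := by
      show (c • mt z).det ≠ 0
      rw [Matrix.det_smul, Fintype.card_fin]
      exact mul_ne_zero (pow_ne_zero _ hc.ne') hz
    show ENNReal.ofReal (S _) = ENNReal.ofReal (S z)
    rw [hS1 _ h2, hS1 _ hz]
    congr 1
    refine Finset.sum_congr rfl fun x _ => ?_
    show ‖F (c • mt z) x‖ ^ 2 = _
    rw [hF.scal c hc (mt z) x hz]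
  have e1 : ∫⁻ z in D, ENNReal.ofReal (∑ x : VN m N, ‖F ((mt z : Mat m) * w) x‖ ^ 2) ∂(hm m) =
      ∫⁻ z in D, ENNReal.ofReal (S (fun i j => (mt z * w) i j)) ∂(hm m) := by
    refine setLIntegral_congr_fun hD.meas fun z hz => ?_
    have h1 : (mt (fun i j => (mt z * w) i j : V m)).det ≠ 0 := det_mul_ne (hdet z hz) hw
    show _ = ENNReal.ofReal (S _)
    rw [hS1 _ h1]
    rfl
  have e2 : ∫⁻ z in D, ENNReal.ofReal (S z) ∂(hm m) =
      ∫⁻ z in D, ENNReal.ofReal (∑ x : VN m N, ‖F (mt z) x‖ ^ 2) ∂(hm m) := by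
    refine setLIntegral_congr_fun hD.meas fun z hz => ?_
    show ENNReal.ofReal (S z) = _
    rw [hS1 z (hdet z hz)]
  rw [e1, ← e2]
  exact hrti

/-- the norm of a translate -/
theorem nrm_tr (hVL : T_VLM) (hRTI : T_RTI) (hALU : T_ALU) (hS : SysZ m N T D) (hF : Ivf F)
    {w : Mat m} (hw : w.det ≠ 0) : nU D (tF w F) = nU D F := by
  have e1 : nU D (tF w F) = ∫ z in D, ∑ x : VN m N, ‖F ((mt z : Mat m) * w) x‖ ^ 2 ∂(hm m) :=
    (integral_finsetSum _ fun x _ => intv_w hVL hS hF hw x).symm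
  have e2 : nU D F = ∫ z in D, ∑ x : VN m N, ‖F (mt z) x‖ ^ 2 ∂(hm m) :=
    (integral_finsetSum _ fun x _ => intv_o hVL hS hF x).symm
  have h1 : 0 ≤ ∫ z in D, ∑ x : VN m N, ‖F ((mt z : Mat m) * w) x‖ ^ 2 ∂(hm m) :=
    integral_nonneg fun z => Finset.sum_nonneg fun x _ => by positivity
  have h2 : 0 ≤ ∫ z in D, ∑ x : VN m N, ‖F (mt z) x‖ ^ 2 ∂(hm m) :=
    integral_nonneg fun z => Finset.sum_nonneg fun x _ => by positivity
  rw [e1, e2, ← ENNReal.toReal_ofReal h1, ← ENNReal.toReal_ofReal h2,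
    ofReal_integral_eq_lintegral_ofReal
      (integrable_finsetSum _ fun x _ => intv_w hVL hS hF hw x)
      (Eventually.of_forall fun z => Finset.sum_nonneg fun x _ => by positivity),
    ofReal_integral_eq_lintegral_ofReal (integrable_finsetSum _ fun x _ => intv_o hVL hS hF x)
      (Eventually.of_forall fun z => Finset.sum_nonneg fun x _ => by positivity)]
  exact congrArg ENNReal.toReal (nrm_lin hRTI hALU hS hF hw)

/-- polarisation -/
theorem pol (a b : ℂ) : a * (starRingEnd ℂ) b =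
    (1 / 4 : ℂ) * ((((‖a + 1 * b‖ ^ 2 - ‖a + (-1) * b‖ ^ 2 : ℝ)) : ℂ) +
      Complex.I * (((‖a + Complex.I * b‖ ^ 2 - ‖a + (-Complex.I) * b‖ ^ 2 : ℝ)) : ℂ)) := by
  simp only [Complex.sq_norm, Complex.normSq_apply]
  apply Complex.ext
  · simp
    ring
  · simp
    ring

/-- the scalar product from the norms -/
theorem ip_pol (hVL : T_VLM) (hS : SysZ m N T D) (hF : Ivf F) (hG : Ivf G) :
    ip D F G = (1 / 4 : ℂ) * (((nU D (fun g x => F g x + 1 * G g x) -
      nU D (fun g x => F g x + (-1) * G g x) : ℝ) : ℂ) +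
      Complex.I * ((nU D (fun g x => F g x + Complex.I * G g x) -
      nU D (fun g x => F g x + (-Complex.I) * G g x) : ℝ) : ℂ)) := by
  unfold ip nU
  rw [← Finset.sum_sub_distrib, ← Finset.sum_sub_distrib, Complex.ofReal_sum,
    Complex.ofReal_sum, Finset.mul_sum, ← Finset.sum_add_distrib, Finset.mul_sum]
  refine Finset.sum_congr rfl fun x _ => ?_
  have h1 := intv_o hVL hS (ivf_lin hF hG 1) x
  have h2 := intv_o hVL hS (ivf_lin hF hG (-1)) x
  have h3 := intv_o hVL hS (ivf_lin hF hG Complex.I) x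
  have h4 := intv_o hVL hS (ivf_lin hF hG (-Complex.I)) x
  rw [← integral_sub h1 h2, ← integral_sub h3 h4, ← integral_complex_ofReal,
    ← integral_complex_ofReal, ← integral_const_mul, ← integral_add, ← integral_const_mul]
  · exact integral_congr_ae (Eventually.of_forall fun z => pol _ _)
  · exact (h1.sub h2).ofReal
  · exact (h3.sub h4).ofReal.const_mul _

/-- right translations preserve the scalar product -/
theorem ip_tr (hVL : T_VLM) (hRTI : T_RTI) (hALU : T_ALU) (hS : SysZ m N T D) (hF : Ivf F)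
    (hG : Ivf G) {w : Mat m} (hw : w.det ≠ 0) : ip D (tF w F) (tF w G) = ip D F G := by
  rw [ip_pol hVL hS (ivf_tr hF hw) (ivf_tr hG hw), ip_pol hVL hS hF hG]
  have h : ∀ c : ℂ, nU D (fun g x => tF w F g x + c * tF w G g x) =
      nU D (fun g x => F g x + c * G g x) := fun c =>
    nrm_tr hVL hRTI hALU hS (ivf_lin hF hG c) hw
  rw [h, h, h, h]

/-- scalar products of two translates -/
theorem ip_tr2 (hVL : T_VLM) (hRTI : T_RTI) (hALU : T_ALU) (hS : SysZ m N T D) (hF : Ivf F)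
    (hG : Ivf G) {w z : Mat m} (hw : w.det ≠ 0) (hz : z.det ≠ 0) :
    ip D (tF z F) (tF w G) = ip D (tF (w⁻¹ * z) F) G := by
  have hwz : (w⁻¹ * z).det ≠ 0 := det_mul_ne (det_inv_ne hw) hz
  rw [← ip_tr hVL hRTI hALU hS (ivf_tr hF hwz) hG hw]
  congr 1
  funext g x
  unfold tF
  rw [Matrix.mul_assoc, Matrix.mul_nonsing_inv_cancel_left _ _ (isUnit_iff_ne_zero.2 hw)]

/-- the norm of a translate of a form -/
theorem trf_nU (hVL : T_VLM) (hRTI : T_RTI) (hALU : T_ALU) (hS : SysZ m N T D)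
    (hF : HecA m N T F lam) {w : Mat m} (hw : w.det ≠ 0) : nU D (tF w F) = nU D F :=
  nrm_tr hVL hRTI hALU hS (ivf_of hF) hw

/-- the Lipschitz constant of a translate -/
theorem trf_lip (hVL : T_VLM) (hRTI : T_RTI) (hALU : T_ALU) (hS : SysZ m N T D)
    (hF : HecA m N T F lam) (hn : nU D F = 1) {P : ℝ} (hP : 0 ≤ P) (hL : Lip D F P) {z : Mat m}
    (hz : 4 * m * sz (z - 1) ≤ 1) : Lip D (tF z F) (16 * m ^ 3 * (1 + P)) := by
  have hm1 := hS.one_le
  have hm1' : (1 : ℝ) ≤ m := by exact_mod_cast hm1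
  have hm0 : (0 : ℝ) < m := by linarith
  obtain ⟨hzd, hzi⟩ := inv_near hm1 (le_refl (sz (z - 1))) (by linarith)
  have hz1 : sz (z - 1) ≤ 1 / 4 := by
    have h1 := sz_nn (z - 1)
    have h2 : sz (z - 1) ≤ m * sz (z - 1) := le_mul_of_one_le_left h1 hm1'
    linarith
  have hone : sz (1 : Mat m) ≤ 1 := by
    refine sz_le zero_le_one fun i j => ?_
    rw [Matrix.one_apply]
    split_ifs <;> simp
  have hadd : ∀ a b : Mat m, sz (a + b) ≤ sz a + sz b := by
    intro a b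
    refine sz_le (add_nonneg (sz_nn _) (sz_nn _)) fun i j => ?_
    rw [Matrix.add_apply]
    exact (abs_add_le _ _).trans (add_le_add (le_sz _ _ _) (le_sz _ _ _))
  have hzs : sz z ≤ 2 := by
    have h1 := hadd 1 (z - 1)
    rw [add_sub_cancel] at h1
    linarith
  have hzis : sz z⁻¹ ≤ 2 := by
    have h1 := hadd 1 (z⁻¹ - 1)
    rw [add_sub_cancel] at h1
    linarith
  intro w hw
  set w' : Mat m := z⁻¹ * w * z with hw'
  have hu := isUnit_iff_ne_zero.2 hzd
  have e1 : w' - 1 = z⁻¹ * (w - 1) * z := by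
    rw [hw', Matrix.mul_sub, Matrix.sub_mul, Matrix.mul_one, Matrix.nonsing_inv_mul _ hu]
  have hs0 := sz_nn (w - 1)
  have hs : sz (w' - 1) ≤ 4 * m ^ 2 * sz (w - 1) := by
    rw [e1]
    refine (sz_mul _ _).trans ?_
    have h1 := sz_mul z⁻¹ (w - 1)
    have h2 : (m : ℝ) * sz z⁻¹ * sz (w - 1) ≤ m * 2 * sz (w - 1) := by
      refine mul_le_mul_of_nonneg_right ?_ hs0
      exact mul_le_mul_of_nonneg_left hzis hm0.le
    have h3 : (m : ℝ) * sz (z⁻¹ * (w - 1)) ≤ m * (m * 2 * sz (w - 1)) :=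
      mul_le_mul_of_nonneg_left (h1.trans h2) hm0.le
    have h4 : (0 : ℝ) ≤ m * (m * 2 * sz (w - 1)) := by positivity
    calc (m : ℝ) * sz (z⁻¹ * (w - 1)) * sz z ≤ m * (m * 2 * sz (w - 1)) * 2 :=
          mul_le_mul h3 hzs (sz_nn _) h4
      _ = 4 * m ^ 2 * sz (w - 1) := by ring
  have hwd : w.det ≠ 0 := (inv_near hm1 (le_refl (sz (w - 1))) (by linarith)).1
  have hwd' : w'.det ≠ 0 := det_mul_ne (det_mul_ne (det_inv_ne hzd) hwd) hzd
  set G : Mat m → VN m N → ℂ := fun g x => tF w' F g x - F g x with hG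
  have hGh : HecA m N T G lam := hec_sub (trf_hec hF hwd') hF
  have e2 : ∀ (g : Mat m) x, tF z F (g * w) x - tF z F g x = tF z G g x := by
    intro g x
    unfold tF
    simp only [hG]
    unfold tF
    rw [hw', ← Matrix.mul_assoc, ← Matrix.mul_assoc, Matrix.mul_assoc g z z⁻¹,
      Matrix.mul_nonsing_inv _ hu, Matrix.mul_one]
  have e3 : ∑ x, ∫ (v : V m) in D, ‖tF z F ((mt v : Mat m) * w) x - tF z F (mt v) x‖ ^ 2 ∂(hm m) =
      nU D G := by
    rw [← trf_nU hVL hRTI hALU hS hGh hzd]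
    unfold nU
    refine Finset.sum_congr rfl fun x _ => integral_congr_ae (Eventually.of_forall fun v => ?_)
    show ‖tF z F ((mt v : Mat m) * w) x - tF z F (mt v) x‖ ^ 2 = ‖tF z G (mt v) x‖ ^ 2
    rw [e2]
  rw [e3]
  have hm3 : (m : ℝ) ^ 2 ≤ (m : ℝ) ^ 3 := pow_le_pow_right₀ hm1' (by norm_num)
  by_cases hc : 2 * m * sz (w' - 1) ≤ 1
  · refine (hL w' hc).trans (pow_le_pow_left₀ (mul_nonneg hP (sz_nn _)) ?_ 2)
    calc P * sz (w' - 1) ≤ P * (4 * m ^ 2 * sz (w - 1)) := mul_le_mul_of_nonneg_left hs hP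
      _ ≤ (1 + P) * (16 * m ^ 3 * sz (w - 1)) := by
          refine mul_le_mul (by linarith) (mul_le_mul_of_nonneg_right ?_ hs0) (by positivity)
            (by linarith)
          nlinarith [pow_pos hm0 3]
      _ = _ := by ring
  · push Not at hc
    have h1 := Pool.Agent.H27.L1.H62.GHY.lip_triv hVL hRTI hALU hS hF hwd'
    have h2 : nU D G ≤ 4 := by
      refine le_trans (le_of_eq ?_) (h1.trans (le_of_eq ?_))
      · rfl
      · rw [hn, mul_one]
    refine h2.trans ?_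
    have h3 : 1 ≤ 8 * m ^ 3 * sz (w - 1) := by
      refine hc.le.trans ?_
      calc 2 * m * sz (w' - 1) ≤ 2 * m * (4 * m ^ 2 * sz (w - 1)) :=
            mul_le_mul_of_nonneg_left hs (by positivity)
        _ = _ := by ring
    have h4 : 2 ≤ 16 * m ^ 3 * (1 + P) * sz (w - 1) := by
      calc (2 : ℝ) ≤ 2 * (8 * m ^ 3 * sz (w - 1)) := by linarith
        _ = (8 * m ^ 3 * sz (w - 1)) * 2 * 1 := by ring
        _ ≤ (8 * m ^ 3 * sz (w - 1)) * 2 * (1 + P) :=
            mul_le_mul_of_nonneg_left (by linarith) (by positivity)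
        _ = _ := by ring
    calc (4 : ℝ) = 2 ^ 2 := by norm_num
      _ ≤ _ := pow_le_pow_left₀ (by norm_num) h4 2

end basic

end Pool.Agent.H27.L1.H23.GHK
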