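import Pool.Agent.H27.L1.H31.GK.BSL

/-!
Board ghk (MP_52e316_nt): the abstract part of the row LSK, after helper31's lsk_abs, with the absolute
value outside of the integral in the diagonal terms.
-/

set_option autoImplicit false

namespace Pool.Agent.H27.L1.H23.GHK

open MeasureTheory ENNReal Pool.Agent.H27.L1.H34.GM Pool.Agent.H27.L1.H31.GK

variable {X Y Z : Type} [MeasurableSpace X] [MeasurableSpace Y] [MeasurableSpace Z]

/-- the abstract large sieve for the averages -/
theorem lsk_abs2 (μ : Measure X) (ν : Measure Y) (ρ : Measure Z) [IsFiniteMeasure μ]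
    [IsFiniteMeasure ν] [IsFiniteMeasure ρ] {ι : Type} [Fintype ι] [DecidableEq ι]
    {S : Set Y} (hS : MeasurableSet S) {K : Y × X → ℂ} (hK : Measurable K)
    {E : ENNReal} (hE : ∫⁻ y in S, ∫⁻ x, ENNReal.ofReal (‖K (y, x)‖ ^ 2) ∂μ ∂ν ≤ E)
    {f : ι → Z × X → ℂ} {g : ι → Z × Y → ℂ} (hf : ∀ i, Measurable (f i))
    (hg : ∀ i, Measurable (g i)) {M : ℝ} (hfM : ∀ i p, ‖f i p‖ ≤ M) (hgM : ∀ i p, ‖g i p‖ ≤ M)
    {b : ι → ℂ} (hop : ∀ i z, ∀ y ∈ S, ∫⁻ x, ENNReal.ofReal (‖K (y, x)‖ ^ 2) ∂μ < ⊤ →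
      ∫ x, K (y, x) * f i (z, x) ∂μ = b i * g i (z, y))
    (horth : ∀ i j, i ≠ j → ∀ z z', ∫ x, f i (z, x) * (starRingEnd ℂ) (f j (z', x)) ∂μ = 0)
    {q : ι → ℝ} (hq0 : ∀ i, 0 < q i)
    (hq : ∀ i, ‖∫ z, ∫ z', (∫ x, f i (z, x) * (starRingEnd ℂ) (f i (z', x)) ∂μ) *
      (starRingEnd ℂ) (∫ y, g i (z, y) * (starRingEnd ℂ) (g i (z', y)) ∂ν) ∂ρ ∂ρ‖ ≤ q i)
    {A : ι → ℝ} (hA0 : ∀ i, 0 ≤ A i)
    (hA : ∀ i, A i ≤ ∫ z, ∫ y in S, ‖g i (z, y)‖ ^ 2 ∂ν ∂ρ) :
    ∑ i, ENNReal.ofReal (‖b i‖ ^ 2 * A i ^ 2 / q i) ≤ E := by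
  by_cases htop : E = ⊤
  · rw [htop]
    exact le_top
  obtain ⟨U, hU⟩ : ∃ U : ι → Y × X → ℂ, U = fun i => Uav ρ (f i) (g i) := ⟨_, rfl⟩
  have hUm : ∀ i, Measurable (U i) := fun i => by
    rw [hU]
    exact uav_meas ρ (hf i) (hg i)
  have hUb : ∀ i p, ‖U i p‖ ≤ M * M * (ρ Set.univ).toReal := fun i p => by
    rw [hU]
    exact uav_bdd ρ (hfM i) (hgM i) p
  have hUL : ∀ i, MemLp (U i) 2 (ν.prod μ) := fun i =>
    MemLp.of_bound (hUm i).aestronglyMeasurable _ (Filter.Eventually.of_forall (hUb i))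
  have hUo : ∀ i j, i ≠ j → ∫ p, U i p * (starRingEnd ℂ) (U j p) ∂(ν.prod μ) = 0 := by
    intro i j hij
    rw [hU]
    simp only
    rw [uav_inner μ ν ρ (hf i) (hg i) (hf j) (hg j) (hfM i) (hgM i) (hfM j) (hgM j)]
    simp only [horth i j hij, mul_zero, integral_zero]
  have hUq : ∀ i, ∫⁻ p, ENNReal.ofReal (‖U i p‖ ^ 2) ∂(ν.prod μ) ≤ ENNReal.ofReal (q i) := by
    intro i
    have h1 : Integrable (fun p => ‖U i p‖ ^ 2) (ν.prod μ) :=
      (memLp_two_iff_integrable_sq_norm (hUL i).1).1 (hUL i)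
    rw [← ofReal_integral_eq_lintegral_ofReal h1
      (Filter.Eventually.of_forall fun x => by positivity)]
    refine ENNReal.ofReal_le_ofReal (le_trans ?_ (hq i))
    have h2 : ((∫ p, ‖U i p‖ ^ 2 ∂(ν.prod μ) : ℝ) : ℂ) =
        ∫ p, U i p * (starRingEnd ℂ) (U i p) ∂(ν.prod μ) := by
      rw [← integral_complex_ofReal]
      refine integral_congr_ae (Filter.Eventually.of_forall fun p => ?_)
      simp only
      rw [Complex.mul_conj, Complex.normSq_eq_norm_sq]
    have h3 : ∫ p, ‖U i p‖ ^ 2 ∂(ν.prod μ) ≤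
        ‖∫ p, U i p * (starRingEnd ℂ) (U i p) ∂(ν.prod μ)‖ := by
      rw [← h2, Complex.norm_real]
      exact le_abs_self _
    refine h3.trans ?_
    rw [hU]
    simp only
    rw [uav_inner μ ν ρ (hf i) (hg i) (hf i) (hg i) (hfM i) (hgM i) (hfM i) (hgM i)]
    obtain ⟨Wq, hWq⟩ : ∃ Wq : Z × Z → ℂ, Wq = fun q =>
        (∫ y, (starRingEnd ℂ) (g i (q.1, y)) * g i (q.2, y) ∂ν) *
          (∫ x, f i (q.1, x) * (starRingEnd ℂ) (f i (q.2, x)) ∂μ) := ⟨_, rfl⟩
    have hWqi : Integrable Wq (ρ.prod ρ) := by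
      rw [hWq]
      have c1 : Measurable (fun q : Z × Z => ∫ y, (starRingEnd ℂ) (g i (q.1, y)) * g i (q.2, y)
          ∂ν) := by
        have a1 : Measurable (fun r : (Z × Z) × Y => (starRingEnd ℂ) (g i (r.1.1, r.2)) *
            g i (r.1.2, r.2)) :=
          (Complex.continuous_conj.measurable.comp ((hg i).comp (by fun_prop))).mul
            ((hg i).comp (by fun_prop))
        exact (a1.stronglyMeasurable.integral_prod_right (ν := ν)).measurable
      have c2 : Measurable (fun q : Z × Z => ∫ x, f i (q.1, x) * (starRingEnd ℂ) (f i (q.2, x))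
          ∂μ) := by
        have a1 : Measurable (fun r : (Z × Z) × X => f i (r.1.1, r.2) *
            (starRingEnd ℂ) (f i (r.1.2, r.2))) :=
          ((hf i).comp (by fun_prop)).mul
            (Complex.continuous_conj.measurable.comp ((hf i).comp (by fun_prop)))
        exact (a1.stronglyMeasurable.integral_prod_right (ν := μ)).measurable
      refine int_bdd (c1.mul c2) (M := (M * M * (ν Set.univ).toReal) *
        (M * M * (μ Set.univ).toReal)) fun q => ?_
      rw [norm_mul]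
      refine mul_le_mul ?_ ?_ (norm_nonneg _) ?_
      · refine norm_integral_le_of_norm_le_const (Filter.Eventually.of_forall fun z => ?_)
        rw [norm_mul, RCLike.norm_conj]
        exact mul_le_mul (hgM i _) (hgM i _) (norm_nonneg _) ((norm_nonneg _).trans (hgM i (q.1, z)))
      · refine norm_integral_le_of_norm_le_const (Filter.Eventually.of_forall fun z => ?_)
        rw [norm_mul, RCLike.norm_conj]
        exact mul_le_mul (hfM i _) (hfM i _) (norm_nonneg _) ((norm_nonneg _).trans (hfM i (q.1, z)))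
      · have : 0 ≤ M * M := mul_self_nonneg M
        positivity
    refine le_of_eq (congrArg norm ?_)
    have e0 : ∫ q, Wq q ∂(ρ.prod ρ) = ∫ z, ∫ z', Wq (z, z') ∂ρ ∂ρ := integral_prod _ hWqi
    rw [hWq] at e0
    refine e0.trans ?_
    refine integral_congr_ae (Filter.Eventually.of_forall fun z => ?_)
    refine integral_congr_ae (Filter.Eventually.of_forall fun z' => ?_)
    simp only
    rw [mul_comm, ← integral_conj]
    congr 1
    refine integral_congr_ae (Filter.Eventually.of_forall fun y => ?_)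
    simp only [map_mul, Complex.conj_conj]
  -- the kernel
  obtain ⟨H, hH⟩ : ∃ H : Y × X → ℂ, H = (S ×ˢ Set.univ).indicator K := ⟨_, rfl⟩
  have hHm : Measurable H := by
    rw [hH]
    exact hK.indicator (hS.prod MeasurableSet.univ)
  have hH2 : ∫⁻ p, ENNReal.ofReal (‖H p‖ ^ 2) ∂(ν.prod μ) ≤ E := by
    refine le_trans (le_of_eq ?_) hE
    rw [lintegral_prod _ (by fun_prop), ← lintegral_indicator hS]
    refine lintegral_congr fun y => ?_
    by_cases hy : y ∈ S
    · rw [Set.indicator_of_mem hy]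
      refine lintegral_congr fun x => ?_
      rw [hH, Set.indicator_of_mem (show (y, x) ∈ S ×ˢ Set.univ from ⟨hy, trivial⟩)]
    · rw [Set.indicator_of_notMem hy]
      refine (lintegral_congr fun x => ?_).trans lintegral_zero
      rw [hH, Set.indicator_of_notMem (fun h => hy h.1)]
      simp
  have hHL : MemLp H 2 (ν.prod μ) := by
    rw [memLp_two_iff_integrable_sq_norm hHm.aestronglyMeasurable]
    refine ⟨(hHm.norm.pow_const 2).aestronglyMeasurable, ?_⟩
    refine lt_of_le_of_lt ?_ (lt_of_le_of_lt hH2 (lt_top_iff_ne_top.2 htop))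
    refine lintegral_mono fun z => ?_
    rw [← ofReal_norm, Real.norm_of_nonneg (by positivity)]
  have hH1 : Integrable H (ν.prod μ) := hHL.integrable (by norm_num)
  refine le_trans ?_ ((bessel_orth hUL q hq0 hUo hUq hHL).trans hH2)
  refine Finset.sum_le_sum fun i _ => ENNReal.ofReal_le_ofReal ?_
  refine div_le_div_of_nonneg_right ?_ (hq0 i).le
  -- the scalar product with the kernel
  have hfin : ∀ᵐ y ∂ν, y ∈ S → ∫⁻ x, ENNReal.ofReal (‖K (y, x)‖ ^ 2) ∂μ < ⊤ := by
    have h1 : Measurable fun y => ∫⁻ x, ENNReal.ofReal (‖K (y, x)‖ ^ 2) ∂μ :=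
      Measurable.lintegral_prod_right' (f := fun p : Y × X => ENNReal.ofReal (‖K p‖ ^ 2))
        ((hK.norm.pow_const 2).ennreal_ofReal)
    exact (ae_restrict_iff' hS).1 (ae_lt_top h1 (ne_top_of_le_ne_top htop hE))
  obtain ⟨I, hI⟩ : ∃ I : ℝ, I = ∫ z, ∫ y in S, ‖g i (z, y)‖ ^ 2 ∂ν ∂ρ := ⟨_, rfl⟩
  have hIA : A i ≤ I := by
    rw [hI]
    exact hA i
  have hmain : ∫ p, H p * U i p ∂(ν.prod μ) = b i * (I : ℂ) := by
    obtain ⟨W, hW⟩ : ∃ W : (Y × X) × Z → ℂ, W = fun r => H r.1 * (f i (r.2, r.1.2) *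
        (starRingEnd ℂ) (g i (r.2, r.1.1))) := ⟨_, rfl⟩
    have b1 : Measurable (fun r : (Y × X) × Z => f i (r.2, r.1.2) *
        (starRingEnd ℂ) (g i (r.2, r.1.1))) := by
      have h2 : Measurable (fun q : (Y × X) × Z => f i (q.2, q.1.2)) := (hf i).comp (by fun_prop)
      have h3 : Measurable (fun q : (Y × X) × Z => (starRingEnd ℂ) (g i (q.2, q.1.1))) :=
        Complex.continuous_conj.measurable.comp ((hg i).comp (by fun_prop))
      exact h2.mul h3
    have b2 : ∀ r : (Y × X) × Z, ‖f i (r.2, r.1.2) * (starRingEnd ℂ) (g i (r.2, r.1.1))‖ ≤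
        M * M := by
      intro r
      rw [norm_mul, RCLike.norm_conj]
      exact mul_le_mul (hfM i _) (hgM i _) (norm_nonneg _) ((norm_nonneg _).trans (hfM i (r.2, r.1.2)))
    have hWi : Integrable W ((ν.prod μ).prod ρ) := by
      rw [hW]
      have h2 : Integrable (fun r : (Y × X) × Z => H r.1) ((ν.prod μ).prod ρ) := hH1.comp_fst ρ
      exact h2.mul_bdd (c := M * M) b1.aestronglyMeasurable (Filter.Eventually.of_forall b2)
    have e1 : ∀ p : Y × X, H p * U i p = ∫ z, W (p, z) ∂ρ := by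
      intro p
      rw [hU, hW]
      simp only
      unfold Uav
      rw [integral_const_mul]
    have e2 : ∀ z, ∫ p, W (p, z) ∂(ν.prod μ) = b i * ((∫ y in S, ‖g i (z, y)‖ ^ 2 ∂ν : ℝ) : ℂ) := by
      intro z
      have h3 : Integrable (fun p : Y × X => W (p, z)) (ν.prod μ) := by
        rw [hW]
        refine hH1.mul_bdd (c := M * M) ?_ (Filter.Eventually.of_forall fun p => b2 (p, z))
        exact (b1.comp (measurable_prodMk_right : Measurable fun p : Y × X => (p, z))).aestronglyMeasurable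
      rw [integral_prod _ h3]
      have h4 : ∀ᵐ y ∂ν, ∫ x, W ((y, x), z) ∂μ =
          S.indicator (fun y => b i * ((‖g i (z, y)‖ ^ 2 : ℝ) : ℂ)) y := by
        filter_upwards [hfin] with y hyf
        by_cases hy : y ∈ S
        · rw [Set.indicator_of_mem hy]
          have h5 : ∀ x, W ((y, x), z) = (starRingEnd ℂ) (g i (z, y)) *
              (K (y, x) * f i (z, x)) := by
            intro x
            rw [hW, hH]
            simp only
            rw [Set.indicator_of_mem (show (y, x) ∈ S ×ˢ Set.univ from ⟨hy, trivial⟩)]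
            ring
          simp only [h5]
          rw [integral_const_mul, hop i z y hy (hyf hy)]
          have h6 : (starRingEnd ℂ) (g i (z, y)) * (b i * g i (z, y)) =
              b i * (g i (z, y) * (starRingEnd ℂ) (g i (z, y))) := by ring
          rw [h6, Complex.mul_conj, Complex.normSq_eq_norm_sq]
        · rw [Set.indicator_of_notMem hy]
          refine (integral_congr_ae (Filter.Eventually.of_forall fun x => ?_)).trans
            (integral_zero _ _)
          rw [hW, hH]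
          simp only
          rw [Set.indicator_of_notMem (fun h => hy h.1), zero_mul]
      rw [integral_congr_ae h4]
      rw [integral_indicator hS, integral_const_mul, integral_complex_ofReal]
    calc ∫ p, H p * U i p ∂(ν.prod μ) = ∫ p, ∫ z, W (p, z) ∂ρ ∂(ν.prod μ) :=
          integral_congr_ae (Filter.Eventually.of_forall e1)
      _ = ∫ z, ∫ p, W (p, z) ∂(ν.prod μ) ∂ρ := integral_integral_swap hWi
      _ = ∫ z, b i * ((∫ y in S, ‖g i (z, y)‖ ^ 2 ∂ν : ℝ) : ℂ) ∂ρ :=
          integral_congr_ae (Filter.Eventually.of_forall e2)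
      _ = _ := by
          rw [integral_const_mul, integral_complex_ofReal, hI]
  rw [hmain, norm_mul, mul_pow, Complex.norm_real, Real.norm_eq_abs, sq_abs]
  exact mul_le_mul_of_nonneg_left (pow_le_pow_left₀ (hA0 i) hIA 2) (by positivity)

end Pool.Agent.H27.L1.H23.GHK
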