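import Pool.Agent.H27.L1.H23.GHK.LSA
import Pool.Agent.H27.L1.H23.GHK.TRF
import Pool.Agent.H27.L1.H91.GA.RRN
import Pool.Agent.H27.L1.H74.GA.RRA
import Pool.Agent.H27.L1.H55.GHY.HSD
import Pool.Agent.H27.L1.H68.GHK.Targets

/-!
Board ghk (MP_52e316_nt), row LSK: measurability of the translates and of their convolutions.
-/

set_option autoImplicit false

namespace Pool.Agent.H27.L1.H23.GHK

open MeasureTheory Filter Pool.Agent.H27.L1.H34.GM Pool.Agent.H27.L1.H34.GZ Pool.Agent.H27.L1.H34.GU Pool.Agent.H27.L1.H34.GA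
  Pool.Agent.H27.L1.H68.GHY
open Pool.Agent.H27.L1.H46.GU (fz fz_eq fz_meas)
open Pool.Agent.H27.L1.H91.GA (tr tr_meas fz_tr inv_det)
open Pool.Agent.H27.L1.H68.GHK (rt Bn Hn OrS)

/-- right translation -/
def tm {m : ℕ} (z u : V m) : V m := fun i j => (mt z * mt u) i j

theorem tm_meas (m : ℕ) : Measurable fun p : V m × V m => tm p.1 p.2 := by
  refine measurable_pi_lambda _ fun i => measurable_pi_lambda _ fun j => ?_
  have h1 : ∀ p : V m × V m, tm p.1 p.2 i j = ∑ k, p.1 i k * p.2 k j :=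
    fun p => Matrix.mul_apply
  simp only [h1]
  refine Finset.measurable_sum _ fun k _ => Measurable.mul ?_ ?_
  · exact (measurable_pi_apply k).comp ((measurable_pi_apply i).comp measurable_fst)
  · exact (measurable_pi_apply j).comp ((measurable_pi_apply k).comp measurable_snd)

section meas

variable {m N : ℕ} [NeZero N] {B D : Set (V m)} {F : Mat m → VN m N → ℂ}

open Classical in
/-- the translates on the domain -/
noncomputable def fB (B D : Set (V m)) (F : Mat m → VN m N → ℂ) (p : V m × (V m × VN m N)) : ℂ :=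
  if p.1 ∈ B ∧ p.2.1 ∈ D then F (mt p.2.1 * mt p.1) p.2.2 else 0

open Classical in
/-- the convolutions of the translates on the domain -/
noncomputable def gB (B D : Set (V m)) (k : Mat m → ℂ) (F : Mat m → VN m N → ℂ)
    (p : V m × (V m × VN m N)) : ℂ :=
  if p.1 ∈ B ∧ p.2.1 ∈ D then Rr k 1 (rt (mt p.1) F) (mt p.2.1) p.2.2 else 0

theorem meas_ite {G H : V m × V m → ℂ} (hB : MeasurableSet B) (hD : MeasurableSet D)
    (hH : Measurable H) (h : ∀ p : V m × V m, p.1 ∈ B → p.2 ∈ D → G p = H p) :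
    Measurable fun p : V m × V m => (B ×ˢ D).indicator G p := by
  have h1 : (fun p : V m × V m => (B ×ˢ D).indicator G p) = (B ×ˢ D).indicator H := by
    funext p
    by_cases hp : p ∈ B ×ˢ D
    · rw [Set.indicator_of_mem hp, Set.indicator_of_mem hp, h p hp.1 hp.2]
    · rw [Set.indicator_of_notMem hp, Set.indicator_of_notMem hp]
  rw [h1]
  exact hH.indicator (hB.prod hD)

theorem meas_lift [MeasurableSpace (VN m N)] [MeasurableSingletonClass (VN m N)]
    {G : VN m N → V m × V m → ℂ} (hG : ∀ x, Measurable (G x)) :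
    Measurable fun p : V m × (V m × VN m N) => G p.2.2 (p.1, p.2.1) := by
  have h1 : Measurable fun q : (V m × V m) × VN m N => G q.2 q.1 :=
    measurable_from_prod_countable_left fun x => hG x
  have h2 : Measurable fun p : V m × (V m × VN m N) =>
      (((p.1, p.2.1), p.2.2) : (V m × V m) × VN m N) := by fun_prop
  exact h1.comp h2

theorem fB_meas (hM : T_MSR) [MeasurableSpace (VN m N)] [MeasurableSingletonClass (VN m N)]
    (hB : MeasurableSet B) (hD : MeasurableSet D) (hBd : ∀ u ∈ B, (mt u).det ≠ 0)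
    (hDd : ∀ z ∈ D, (mt z).det ≠ 0) (hc : ∀ x, ContinuousOn (fun g => F g x) {g | g.det ≠ 0}) :
    Measurable (fB B D F) := by
  have h1 : ∀ x, Measurable fun p : V m × V m => (B ×ˢ D).indicator
      (fun p : V m × V m => F (mt p.2 * mt p.1) x) p := by
    intro x
    refine meas_ite hB hD (H := fun p => fz F x (tm p.2 p.1)) ?_ ?_
    · exact (fz_meas hM hc x).comp ((tm_meas m).comp measurable_swap)
    · intro p hp1 hp2
      exact (fz_eq F x (z := tm p.2 p.1) (det_mul_ne (hDd _ hp2) (hBd _ hp1))).symm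
  have h2 := meas_lift (m := m) (N := N) h1
  have h3 : fB B D F = fun p : V m × (V m × VN m N) => (B ×ˢ D).indicator
      (fun q : V m × V m => F (mt q.2 * mt q.1) p.2.2) (p.1, p.2.1) := by
    funext p
    unfold fB
    by_cases hp : p.1 ∈ B ∧ p.2.1 ∈ D
    · rw [if_pos hp, Set.indicator_of_mem (show (p.1, p.2.1) ∈ B ×ˢ D from hp)]
    · rw [if_neg hp, Set.indicator_of_notMem (show (p.1, p.2.1) ∉ B ×ˢ D from hp)]
  rw [h3]
  exact h2

theorem gB_meas (hM : T_MSR) (hm1 : 1 ≤ m) [MeasurableSpace (VN m N)]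
    [MeasurableSingletonClass (VN m N)] {k : Mat m → ℂ} (hk : Tg m k)
    (hB : MeasurableSet B) (hD : MeasurableSet D) (hBd : ∀ u ∈ B, (mt u).det ≠ 0)
    (hDd : ∀ z ∈ D, (mt z).det ≠ 0) (hc : ∀ x, ContinuousOn (fun g => F g x) {g | g.det ≠ 0}) :
    Measurable (gB B D k F) := by
  have hsf : SFinite (hm m) := by unfold hm; infer_instance
  obtain ⟨-, -, -, -, -, hSh, -, -⟩ := hM.1 m
  have h1 : ∀ x, Measurable fun p : V m × V m => (B ×ˢ D).indicator
      (fun p : V m × V m => Rr k 1 (rt (mt p.1) F) (mt p.2) x) p := by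
    intro x
    refine meas_ite hB hD (H := fun p => ∫ v in Shell m,
      k (((1 : ℝ)⁻¹ * (aN (mt v))⁻¹) • mt v) * fz F x (tm (tr p.2 v) p.1) ∂(hm m)) ?_ ?_
    · have h2 : Measurable fun q : (V m × V m) × V m =>
          k (((1 : ℝ)⁻¹ * (aN (mt q.2))⁻¹) • mt q.2) * fz F x (tm (tr q.1.2 q.2) q.1.1) := by
        refine Measurable.mul ?_ ?_
        · exact (th1_meas hM hk.cont (1 : ℝ)⁻¹).comp measurable_snd
        · refine (fz_meas hM hc x).comp ?_
          have h3 : Measurable fun q : (V m × V m) × V m => (tr q.1.2 q.2, q.1.1) := by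
            refine Measurable.prodMk ?_ ?_
            · exact (tr_meas hM m).comp ((measurable_snd.comp measurable_fst).prodMk measurable_snd)
            · exact measurable_fst.comp measurable_fst
          exact (tm_meas m).comp h3
      exact (h2.stronglyMeasurable.integral_prod_right
        (ν := (hm m).restrict (Shell m))).measurable
    · intro p hp1 hp2
      unfold Rr
      refine setIntegral_congr_fun hSh fun v hv => ?_
      have hv0 : (mt v).det ≠ 0 := Pool.Agent.H27.L1.H55.GHY.hsd_det hm1 hv.1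
      show _ = k (((1 : ℝ)⁻¹ * (aN (mt v))⁻¹) • mt v) * fz F x (tm (tr p.2 v) p.1)
      have h4 : (mt (tr p.2 v)).det ≠ 0 := det_mul_ne (hDd _ hp2) (inv_det hv0)
      rw [fz_eq F x (z := tm (tr p.2 v) p.1) (det_mul_ne h4 (hBd _ hp1))]
      rfl
  have h2 := meas_lift (m := m) (N := N) h1
  have h3 : gB B D k F = fun p : V m × (V m × VN m N) => (B ×ˢ D).indicator
      (fun q : V m × V m => Rr k 1 (rt (mt q.1) F) (mt q.2) p.2.2) (p.1, p.2.1) := by
    funext p
    unfold gB
    by_cases hp : p.1 ∈ B ∧ p.2.1 ∈ D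
    · rw [if_pos hp, Set.indicator_of_mem (show (p.1, p.2.1) ∈ B ×ˢ D from hp)]
    · rw [if_neg hp, Set.indicator_of_notMem (show (p.1, p.2.1) ∉ B ×ˢ D from hp)]
  rw [h3]
  exact h2

/-- the convolutions of the translates are bounded, uniformly -/
theorem rr_bd (hM : T_MSR) (hH : T_HAR) (hm1 : 1 ≤ m) {k : Mat m → ℂ} (hk : Tg m k) {A : ℝ}
    (hA : 0 ≤ A) (hF : ∀ g x, g.det ≠ 0 → ‖F g x‖ ≤ A) : ∃ M : ℝ, 0 ≤ M ∧ ∀ u g : Mat m,
    u.det ≠ 0 → g.det ≠ 0 → ∀ x, ‖Rr k 1 (rt u F) g x‖ ≤ M := by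
  obtain ⟨M, hM0, hMb⟩ := Pool.Agent.H27.L1.H74.GA.tg_bd hk
  obtain ⟨c, hc, hs⟩ := Pool.Agent.H27.L1.H74.GA.tg_sup hm1 hk (one_pos : (0 : ℝ) < 1)
  refine ⟨∫ z in Shell m, (th1K m c).indicator (fun _ => M * A) z ∂(hm m), ?_, ?_⟩
  · exact integral_nonneg fun z => Set.indicator_nonneg (fun _ _ => by positivity) _
  · intro u g hu hg x
    exact norm_integral_le_of_norm_le (Pool.Agent.H27.L1.H74.GA.rr_maj hH hm1 hc (M * A))
      (Pool.Agent.H27.L1.H74.GA.rr_le hM hm1 hM0 hMb hs hA (x := x)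
        (fun g' hg' => hF _ x (det_mul_ne hg' hu)) hg)

end meas

end Pool.Agent.H27.L1.H23.GHK
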