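import Pool.Agent.H27.L1.H23.GHK.TRF
import Pool.Agent.H27.L1.H31.GK.TG

/-!
Rows TRN, TRI, TLP of the board ghk (MP_52e316_nt): the translates, in the notation of H31/GK/TG.
-/

namespace Pool.Agent.H27.L1.H23.GHK

open MeasureTheory Pool.Agent.H27.L1.H34.GM Pool.Agent.H27.L1.H34.GZ Pool.Agent.H27.L1.H34.GU Pool.Agent.H27.L1.H34.GA
open Pool.Agent.H27.L1.H31.GK

theorem pf_TRN : T_TRN := fun _ _ _ _ _ _ _ hw =>
  ⟨fun h => trf_hec h hw, fun h => trf_cus h hw⟩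

theorem pf_TRI (hVL : T_VLM) (hRTI : T_RTI) (hALU : T_ALU) : T_TRI := by
  intro m N _ T D hS F G lam lam' hF hG w w' hw hw'
  exact ip_tr2 hVL hRTI hALU hS (ivf_of hF) (ivf_of hG) hw' hw

/-- any radius up to `1 / (4 m)` -/
theorem tlp (hVL : T_VLM) (hRTI : T_RTI) (hALU : T_ALU) : ∀ m : ℕ, 1 ≤ m → ∃ C : ℝ, 1 ≤ C ∧
    ∀ (N : ℕ) [NeZero N] (T : ℕ → Finset (ZM m)) (D : Set (V m)), SysZ m N T D →
    ∀ (F : Mat m → VN m N → ℂ) (lam : ℕ → ℂ), HecA m N T F lam → nU D F = 1 →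
    ∀ P : ℝ, 0 ≤ P → Lip D F P → ∀ w : Mat m, 4 * m * sz (w - 1) ≤ 1 →
      nU D (trn w F) = 1 ∧ Lip D (trn w F) (C * (1 + P)) := by
  intro m hm1
  have hm1' : (1 : ℝ) ≤ m := by exact_mod_cast hm1
  have h3 : (1 : ℝ) ≤ (m : ℝ) ^ 3 := one_le_pow₀ hm1'
  refine ⟨16 * m ^ 3, by linarith, ?_⟩
  intro N _ T D hS F lam hF hn P hP hL w hw
  have hs := Pool.Agent.H27.L1.H90.GA.sz_nn (w - 1)
  have hwd : w.det ≠ 0 :=
    (Pool.Agent.H27.L1.H90.GA.inv_near hm1 (le_refl (sz (w - 1))) (by linarith)).1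
  exact ⟨(trf_nU hVL hRTI hALU hS hF hwd).trans hn, trf_lip hVL hRTI hALU hS hF hn hP hL hw⟩

theorem pf_TLP (hVL : T_VLM) (hRTI : T_RTI) (hALU : T_ALU) : T_TLP := by
  intro m hm1
  obtain ⟨C, hC, h⟩ := tlp hVL hRTI hALU m hm1
  refine ⟨C, hC, ?_⟩
  intro N _ T D hS F lam hF hn P hP hL w hw
  refine h N T D hS F lam hF hn P hP hL w ?_
  have hm1' : (1 : ℝ) ≤ m := by exact_mod_cast hm1
  unfold r0 at hw
  have h1 : 4 * (m : ℝ) * sz (w - 1) ≤ 4 * m * (1 / (8 * (m : ℝ) ^ 2)) :=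
    mul_le_mul_of_nonneg_left hw (by positivity)
  refine h1.trans ?_
  have h2 : 4 * (m : ℝ) * (1 / (8 * (m : ℝ) ^ 2)) = 1 / (2 * m) := by
    field_simp
    norm_num
  rw [h2, div_le_one (by positivity)]
  linarith

end Pool.Agent.H27.L1.H23.GHK
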